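import Pool.Agent.Helper95.SEP.Conn

/-!
# A balanced set whose rest is one vertex

`G' = dG G M a b k`, `U' = M ∪ {a, b, k}`, `Y ⊆ U'` balanced with exactly three neighbours, the rest
is one vertex `r`. Then `G'` has a TOK4 (if its index is at least two). NO density is used.
PROOF. `N = Nb G' Y = {p, q, t}`. `dG_conn` and `dG_deg3` give: `Nb G' {r} = N` (the neighbours of
`r` are not in `Y`, so in `N`; there are at least three).
* `κ` constant on `N`: for every pair, e.g. `p, q`: if `p q` is no edge then `G' - t` is properly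
  coloured by `κ` on `Y ∪ N`, `κ p + 1` on `r` (edges: meeting `Y`: `κ`; `r p`, `r q`; inside `N`
  only `p q`): contradiction to `hidx`. So `p, q, t` is a triangle. Let `v ∈ Y` be a neighbour of
  `p`. Fan from `v` to `N` inside `restr G' Y` (`fan_of_Nb`: `Z ∋ v` connected in `restr G' Y` and
  disjoint from `N` is a subset of `Y`, `Nb (restr G' Y) Z = Nb G' Z` (`Nb_restr`), at least three by
  `dG_conn`, since `r` is not in `Z ∪ Nb G' Z`). The three ends are `N`; weights: the edges
  of the walks meet `Y`, so `wt = κ v + κ (end) = 1` (`κ v ≠ κ p`). `hasTOK4s_of_fan_triangle`.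
* otherwise (after renaming) `κ p = κ q ≠ κ t`: if `p q` is no edge, `G' - r` is properly coloured
  by `κ`: contradiction. Triangle `r, p, q`; fan from a neighbour `v ∈ Y` of `p`: weights
  `v..p`: 1, `v..q`: 1, `v..t`: 0, then the edge `t r`: 1. `hasTOK4s_of_fan_triangle`.
-/

set_option autoImplicit false

namespace Pool.Agent.Helper95.SEP

open SimpleGraph Pool.Agent.Helper57.TOK Pool.Agent.Helper57.TD Pool.Agent.Helper57.TOP
  Pool.Agent.Helper82.TK

variable {V : Type*} {G : SimpleGraph V} {U M : Set V} {a b k : V}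

/-- Explicit form of the fan criterion. -/
lemma hasTOK4s_of_fan3 {H : SimpleGraph V} {w b0 b1 b2 : V} (P0 : H.Walk w b0)
    (P1 : H.Walk w b1) (P2 : H.Walk w b2) (h0 : P0.IsPath) (h1 : P1.IsPath) (h2 : P2.IsPath)
    (w0 : wt (One V) P0 = 1) (w1 : wt (One V) P1 = 1) (w2 : wt (One V) P2 = 1)
    (n0 : w ≠ b0) (n1 : w ≠ b1) (n2 : w ≠ b2)
    (s01 : b1 ∉ P0.support) (s02 : b2 ∉ P0.support) (s10 : b0 ∉ P1.support)
    (s12 : b2 ∉ P1.support) (s20 : b0 ∉ P2.support) (s21 : b1 ∉ P2.support)
    (d01 : ∀ x, x ∈ P0.support → x ∈ P1.support → x = w)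
    (d02 : ∀ x, x ∈ P0.support → x ∈ P2.support → x = w)
    (d12 : ∀ x, x ∈ P1.support → x ∈ P2.support → x = w)
    (e01 : H.Adj b0 b1) (e02 : H.Adj b0 b2) (e12 : H.Adj b1 b2) : HasTOK4s H (One V) := by
  let b : Fin 3 → V := fun i => match i with
    | 0 => b0
    | 1 => b1
    | 2 => b2
  let P : ∀ i, H.Walk w (b i) := fun i => match i with
    | 0 => P0
    | 1 => P1
    | 2 => P2
  have hb : Function.Injective b := by
    intro i j hij
    by_contra hne
    fin_cases i <;> fin_cases j <;>
      first
        | exact hne rfl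
        | exact e01.ne hij
        | exact e01.ne hij.symm
        | exact e02.ne hij
        | exact e02.ne hij.symm
        | exact e12.ne hij
        | exact e12.ne hij.symm
  refine hasTOK4s_of_fan_triangle P ?_ ?_ hb ?_ ?_ ?_ ?_
  · intro i
    fin_cases i
    · exact h0
    · exact h1
    · exact h2
  · intro i
    fin_cases i
    · exact w0
    · exact w1
    · exact w2
  · intro i
    fin_cases i
    · exact n0
    · exact n1
    · exact n2
  · intro i j hij
    fin_cases i <;> fin_cases j <;>
      first
        | exact absurd rfl hij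
        | exact s01
        | exact s02
        | exact s10
        | exact s12
        | exact s20
        | exact s21
  · intro i j hij
    fin_cases i <;> fin_cases j <;>
      first
        | exact absurd rfl hij
        | exact d01
        | exact d02
        | exact d12
        | exact fun x hx hx' => d01 x hx' hx
        | exact fun x hx hx' => d02 x hx' hx
        | exact fun x hx hx' => d12 x hx' hx
  · intro i j hij
    refine ⟨?_, rfl⟩
    fin_cases i <;> fin_cases j <;>
      first
        | exact absurd rfl hij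
        | exact e01
        | exact e01.symm
        | exact e02
        | exact e02.symm
        | exact e12
        | exact e12.symm

/-- The three paths from a vertex of `Y` to its three neighbours. -/
lemma MinSide.fan3 [Finite V] (h : MinSide G U M) (hr : Roots G M a b k)
    {Y : Set V} (hY : Y ⊆ M ∪ {a, b, k}) {κ : V → ZMod 2}
    (hb : BalOn (dG G M a b k) (One V) Y κ) {r : V} (hrU : r ∈ M ∪ {a, b, k})
    (hrY : r ∉ Y) (hrN : r ∉ Nb (dG G M a b k) Y) {n : Fin 3 → V} (hn : Function.Injective n)
    (hnN : Set.range n = Nb (dG G M a b k) Y) {v : V} (hv : v ∈ Y) :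
    ∃ P : ∀ i, (dG G M a b k).Walk v (n i), (∀ i, (P i).IsPath) ∧
      (∀ i, wt (One V) (P i) = κ v + κ (n i)) ∧
      (∀ i, ∀ x ∈ (P i).support, x ∈ Nb (dG G M a b k) Y → x = n i) ∧
      (∀ i, ∀ x ∈ (P i).support, x ≠ r) ∧
      ∀ i j, i ≠ j → ∀ x, x ∈ (P i).support → x ∈ (P j).support → x = v := by
  classical
  set D := dG G M a b k with hD
  have hvN : v ∉ Nb D Y := fun hh => hh.1 hv
  -- walks of `restr D Y` from `Y` stay in `Y` or reach `Nb D Y`
  have hstay : ∀ {x y : V} (p : (restr D Y).Walk x y), (x ∈ Y ∨ x ∈ Nb D Y) →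
      ∀ z ∈ p.support, z ∈ Y ∨ z ∈ Nb D Y := by
    intro x y p
    induction p with
    | nil =>
      intro hx z hz
      simp only [Walk.support_nil, List.mem_cons, List.not_mem_nil, or_false] at hz
      rw [hz]; exact hx
    | @cons x w y hadj p ih =>
      intro hx z hz
      rw [Walk.support_cons, List.mem_cons] at hz
      rcases hz with rfl | hz
      · exact hx
      · refine ih ?_ z hz
        by_cases hw : w ∈ Y
        · exact Or.inl hw
        · exact Or.inr ⟨hw, x, hadj.2.resolve_right hw, hadj.1⟩
  have hfan : Fan (restr D Y) v (Nb D Y) 3 := by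
    apply fan_of_Nb hvN
    intro Z hvZ hdis hreach
    have hZY : Z ⊆ Y := by
      intro z hz
      obtain ⟨p, -⟩ := hreach z hz
      rcases hstay p (Or.inl hv) z p.end_mem_support with h1 | h1
      · exact h1
      · exact absurd h1 (Set.disjoint_left.1 hdis hz)
    rw [Nb_restr D hZY]
    by_contra hlt
    have hlt' : (Nb D Z).ncard ≤ 2 := by omega
    have h1 := h.dG_conn hr (hZY.trans hY) ⟨v, hvZ⟩ hlt'
    rcases h1 hrU with h2 | ⟨-, u, hu, hur⟩
    · exact hrY (hZY h2)
    · exact hrN ⟨hrY, u, hZY hu, hur⟩
  obtain ⟨c, P, h1, h2, h3⟩ := hfan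
  have hcinj := Fan.injective_end hvN (fun i => (h1 i).1) h3
  have hmem : ∀ i, ∃ j, n j = c i := by
    intro i
    have := (h1 i).1
    rw [← hnN] at this
    exact this
  choose σ hσ using hmem
  have hσinj : Function.Injective σ := by
    intro i j hij
    apply hcinj
    rw [← hσ i, ← hσ j, hij]
  have hσbij : Function.Bijective σ := Finite.injective_iff_bijective.1 hσinj
  let e := Equiv.ofBijective σ hσbij
  have he : ∀ i, c (e.symm i) = n i := by
    intro i
    rw [← hσ (e.symm i)]
    exact congrArg n (e.apply_symm_apply i)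
  refine ⟨fun i => ((P (e.symm i)).mapLe (restr_le D Y)).copy rfl (he i), ?_, ?_, ?_, ?_, ?_⟩
  · intro i
    rw [Walk.isPath_copy, Walk.isPath_mapLe]
    exact (h1 _).2
  · intro i
    rw [wt_copy, wt_mapLe, ← he i]
    refine wt_of_consistent (κ := κ) (Vt := fun _ => False) ?_ _ (fun _ _ hh => hh)
    intro x y hxy _
    rcases hxy.2 with hx | hy
    · exact hb x y hx hxy.1
    · rw [add_comm]
      exact hb y x hy hxy.1.symm
  · intro i x hx hxN
    rw [Walk.support_copy, Walk.support_mapLe_eq_support] at hx
    rw [h2 _ x hx hxN, he]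
  · intro i x hx hxr
    rw [Walk.support_copy, Walk.support_mapLe_eq_support] at hx
    rcases hstay _ (Or.inl hv) x hx with h4 | h4
    · exact hrY (hxr ▸ h4)
    · exact hrN (hxr ▸ h4)
  · intro i j hij x hx hx'
    rw [Walk.support_copy, Walk.support_mapLe_eq_support] at hx hx'
    exact h3 _ _ (fun hh => hij (e.symm.injective hh)) x hx hx'

/-- The case `κ p = κ q`. -/
lemma MinSide.tri_aux [Finite V] (h : MinSide G U M) (hr : Roots G M a b k)
    (hidx : ∀ (w : V) (κ : V → ZMod 2), ¬ BalOff (dG G M a b k) (One V) {w} κ)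
    {Y : Set V} (hY : Y ⊆ M ∪ {a, b, k}) {κ : V → ZMod 2}
    (hb : BalOn (dG G M a b k) (One V) Y κ) {r : V}
    (hrest : (M ∪ {a, b, k}) \ (Y ∪ Nb (dG G M a b k) Y) = {r}) {p q t : V}
    (hpq : p ≠ q) (hpt : p ≠ t) (hqt : q ≠ t) (hN : Nb (dG G M a b k) Y = {p, q, t})
    (hκ : κ p = κ q) : HasTOK4s (dG G M a b k) (One V) := by
  classical
  have hr0 : r ∈ (M ∪ {a, b, k}) \ (Y ∪ Nb (dG G M a b k) Y) := by rw [hrest]; rfl
  have hrU := hr0.1
  have hrY : r ∉ Y := fun hh => hr0.2 (Or.inl hh)
  have hrN : r ∉ Nb (dG G M a b k) Y := fun hh => hr0.2 (Or.inr hh)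
  have hout : ∀ x, x ∈ M ∪ {a, b, k} → x ∉ Y → x ∉ Nb (dG G M a b k) Y → x = r := by
    intro x hx h1 h2
    have : x ∈ (M ∪ {a, b, k}) \ (Y ∪ Nb (dG G M a b k) Y) := ⟨hx, fun hh => hh.elim h1 h2⟩
    rw [hrest] at this
    exact this
  -- the neighbours of `r`
  have hnr : ∀ y, (dG G M a b k).Adj r y → y ∈ Nb (dG G M a b k) Y := by
    intro y hy
    by_contra hyN
    by_cases hyY : y ∈ Y
    · exact hrN ⟨hrY, y, hyY, hy.symm⟩
    · exact hy.ne (hout y (dG_mem hr hy.symm) hyY hyN).symm
  have hcard : (Nb (dG G M a b k) Y).ncard = 3 := by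
    rw [hN]; exact Set.ncard_eq_three.2 ⟨p, q, t, hpq, hpt, hqt, rfl⟩
  have hr3 : ∀ y ∈ Nb (dG G M a b k) Y, (dG G M a b k).Adj r y := by
    have h1 : (dG G M a b k).neighborSet r = Nb (dG G M a b k) Y := by
      have h2 : (dG G M a b k).neighborSet r ⊆ Nb (dG G M a b k) Y := fun y hy => hnr y hy
      have h4 := h.dG_deg3 hr hrU
      exact Set.eq_of_subset_of_ncard_le h2 (by omega) (Set.toFinite _)
    intro y hy
    rw [← h1] at hy
    exact hy
  have mp : p ∈ Nb (dG G M a b k) Y := by rw [hN]; exact Or.inl rfl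
  have mq : q ∈ Nb (dG G M a b k) Y := by rw [hN]; exact Or.inr (Or.inl rfl)
  have mt : t ∈ Nb (dG G M a b k) Y := by rw [hN]; exact Or.inr (Or.inr rfl)
  -- the fan
  obtain ⟨v, hv, hvp⟩ := mp.2
  have hvκ : κ v + κ p = 1 := (hb v p hv hvp).symm
  have hvN : v ∉ Nb (dG G M a b k) Y := fun hh => hh.1 hv
  have ninj : Function.Injective ![p, q, t] := by
    intro i j hij
    by_contra hne
    fin_cases i <;> fin_cases j <;>
      first
        | exact hne rfl
        | exact hpq hij
        | exact hpq hij.symm
        | exact hpt hij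
        | exact hpt hij.symm
        | exact hqt hij
        | exact hqt hij.symm
  have nran : Set.range ![p, q, t] = Nb (dG G M a b k) Y := by
    rw [hN]
    ext x
    simp only [Set.mem_range, Set.mem_insert_iff, Set.mem_singleton_iff]
    constructor
    · rintro ⟨i, rfl⟩
      fin_cases i
      · exact Or.inl rfl
      · exact Or.inr (Or.inl rfl)
      · exact Or.inr (Or.inr rfl)
    · rintro (rfl | rfl | rfl)
      · exact ⟨0, rfl⟩
      · exact ⟨1, rfl⟩
      · exact ⟨2, rfl⟩
  obtain ⟨P, f1, f2, f3, f4, f5⟩ := h.fan3 hr hY hb hrU hrY hrN ninj nran hv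
  have hvw : ∀ x ∈ Nb (dG G M a b k) Y, v ≠ x := fun x hx hh => hvN (hh ▸ hx)
  by_cases ht : κ t = κ p
  · -- one colour: `N` is a triangle
    have pair : ∀ p q t : V, Nb (dG G M a b k) Y = {p, q, t} → κ q = κ p → κ t = κ p → p ≠ q →
        (dG G M a b k).Adj p q := by
      intro p q t hN hκ ht hpq
      by_contra hno
      have hcolN : ∀ x ∈ Nb (dG G M a b k) Y, κ x = κ p := by
        intro x hx
        rw [hN] at hx
        rcases hx with rfl | rfl | hx
        · rfl
        · exact hκ
        · rw [Set.mem_singleton_iff] at hx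
          rw [hx]; exact ht
      refine hidx t (fun x => if x = r then κ p + 1 else κ x) ?_
      intro u w hu hw huw
      show (1 : ZMod 2) = (if u = r then κ p + 1 else κ u) + (if w = r then κ p + 1 else κ w)
      have h2 : ∀ c : ZMod 2, 1 = c + 1 + c ∧ 1 = c + (c + 1) := by decide
      by_cases hur : u = r
      · rw [hur] at huw
        have hwr : w ≠ r := huw.ne.symm
        rw [if_pos hur, if_neg hwr, hcolN w (hnr w huw)]
        exact (h2 _).1
      · by_cases hwr : w = r
        · rw [hwr] at huw
          rw [if_neg hur, if_pos hwr, hcolN u (hnr u huw.symm)]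
          exact (h2 _).2
        · rw [if_neg hur, if_neg hwr]
          by_cases huY : u ∈ Y
          · exact hb u w huY huw
          · by_cases hwY : w ∈ Y
            · rw [add_comm]
              exact hb w u hwY huw.symm
            · exfalso
              have huN : u ∈ Nb (dG G M a b k) Y := by
                by_contra h4
                exact hur (hout u (dG_mem hr huw) huY h4)
              have hwN : w ∈ Nb (dG G M a b k) Y := by
                by_contra h4
                exact hwr (hout w (dG_mem hr huw.symm) hwY h4)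
              rw [hN] at huN hwN
              rcases huN with rfl | rfl | huN
              · rcases hwN with rfl | rfl | hwN
                · exact huw.ne rfl
                · exact hno huw
                · exact hw hwN
              · rcases hwN with rfl | rfl | hwN
                · exact hno huw.symm
                · exact huw.ne rfl
                · exact hw hwN
              · exact hu huN
    have a1 := pair p q t hN hκ.symm ht hpq
    have hN2 : Nb (dG G M a b k) Y = {p, t, q} := by
      rw [hN]; ext x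
      simp only [Set.mem_insert_iff, Set.mem_singleton_iff]
      tauto
    have hN3 : Nb (dG G M a b k) Y = {q, t, p} := by
      rw [hN]; ext x
      simp only [Set.mem_insert_iff, Set.mem_singleton_iff]
      tauto
    have a2 := pair p t q hN2 ht hκ.symm hpt
    have a3 := pair q t p hN3 (ht.trans hκ) hκ hqt
    refine hasTOK4s_of_fan3 (P 0) (P 1) (P 2) (f1 0) (f1 1) (f1 2) ?_ ?_ ?_ (hvw p mp)
      (hvw q mq) (hvw t mt) ?_ ?_ ?_ ?_ ?_ ?_ (f5 0 1 (by decide)) (f5 0 2 (by decide))
      (f5 1 2 (by decide)) a1 a2 a3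
    · rw [f2]; exact hvκ
    · rw [f2]
      show κ v + κ q = 1
      rw [← hκ]; exact hvκ
    · rw [f2]
      show κ v + κ t = 1
      rw [ht]; exact hvκ
    · exact fun hh => hpq (f3 0 q hh mq).symm
    · exact fun hh => hpt (f3 0 t hh mt).symm
    · exact fun hh => hpq (f3 1 p hh mp)
    · exact fun hh => hqt (f3 1 t hh mt).symm
    · exact fun hh => hpt (f3 2 p hh mp)
    · exact fun hh => hqt (f3 2 q hh mq)
  · -- two colours: triangle `p q r`
    have a1 : (dG G M a b k).Adj p q := by
      by_contra hno
      refine hidx r κ ?_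
      intro u w hu hw huw
      show (1 : ZMod 2) = κ u + κ w
      by_cases huY : u ∈ Y
      · exact hb u w huY huw
      · by_cases hwY : w ∈ Y
        · rw [add_comm]
          exact hb w u hwY huw.symm
        · have huN : u ∈ Nb (dG G M a b k) Y := by
            by_contra h4
            exact hu (hout u (dG_mem hr huw) huY h4)
          have hwN : w ∈ Nb (dG G M a b k) Y := by
            by_contra h4
            exact hw (hout w (dG_mem hr huw.symm) hwY h4)
          refine (add_eq_one_iff.2 ?_).symm
          rw [hN] at huN hwN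
          rcases huN with rfl | rfl | huN
          · rcases hwN with rfl | rfl | hwN
            · exact absurd rfl huw.ne
            · exact absurd huw hno
            · rw [Set.mem_singleton_iff] at hwN
              rw [hwN]; exact fun hh => ht hh.symm
          · rcases hwN with rfl | rfl | hwN
            · exact absurd huw.symm hno
            · exact absurd rfl huw.ne
            · rw [Set.mem_singleton_iff] at hwN
              rw [hwN, ← hκ]; exact fun hh => ht hh.symm
          · rw [Set.mem_singleton_iff] at huN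
            rcases hwN with rfl | rfl | hwN
            · rw [huN]; exact ht
            · rw [huN, ← hκ]; exact ht
            · rw [Set.mem_singleton_iff] at hwN
              exact absurd (huN.trans hwN.symm) huw.ne
    have hvt : κ v + κ t = 0 := by
      have h5 : κ v ≠ κ p := add_eq_one_iff.1 hvκ
      exact add_eq_zero_iff'.2 (eq_of_ne_of_ne h5 ht)
    have htr : (dG G M a b k).Adj t r := (hr3 t mt).symm
    have hsup : ∀ x, x ∈ ((P 2).concat htr).support → x ∈ (P 2).support ∨ x = r := by
      intro x hx
      rw [Walk.support_concat, List.mem_append] at hx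
      rcases hx with hx | hx
      · exact Or.inl hx
      · right; simpa using hx
    have hvr : v ≠ r := fun hh => hrY (hh ▸ hv)
    refine hasTOK4s_of_fan3 (P 0) (P 1) ((P 2).concat htr) (f1 0) (f1 1)
      ((f1 2).concat (fun hh => f4 2 r hh rfl) htr) ?_ ?_ ?_ (hvw p mp)
      (hvw q mq) hvr ?_ ?_ ?_ ?_ ?_ ?_ (f5 0 1 (by decide)) ?_ ?_ a1
      (hr3 p mp).symm (hr3 q mq).symm
    · rw [f2]; exact hvκ
    · rw [f2]
      show κ v + κ q = 1
      rw [← hκ]; exact hvκ
    · rw [Walk.concat_eq_append, wt_append, f2]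
      show κ v + κ t + _ = 1
      rw [hvt, zero_add, wt_cons, wt_nil, add_zero]
    · exact fun hh => hpq (f3 0 q hh mq).symm
    · exact fun hh => f4 0 r hh rfl
    · exact fun hh => hpq (f3 1 p hh mp)
    · exact fun hh => f4 1 r hh rfl
    · intro hh
      rcases hsup p hh with h6 | h6
      · exact hpt (f3 2 p h6 mp)
      · exact hrN (h6 ▸ mp)
    · intro hh
      rcases hsup q hh with h6 | h6
      · exact hqt (f3 2 q h6 mq)
      · exact hrN (h6 ▸ mq)
    · intro x hx hx'
      rcases hsup x hx' with h6 | h6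
      · exact f5 0 2 (by decide) x hx h6
      · exact absurd h6 (f4 0 x hx)
    · intro x hx hx'
      rcases hsup x hx' with h6 | h6
      · exact f5 1 2 (by decide) x hx h6
      · exact absurd h6 (f4 1 x hx)

theorem MinSide.tri [Finite V] (h : MinSide G U M) (hr : Roots G M a b k)
    (hidx : ∀ (w : V) (κ : V → ZMod 2), ¬ BalOff (dG G M a b k) (One V) {w} κ)
    {Y : Set V} (hY : Y ⊆ M ∪ {a, b, k}) {κ : V → ZMod 2}
    (hb : BalOn (dG G M a b k) (One V) Y κ)
    (h3 : (Nb (dG G M a b k) Y).ncard = 3) {r : V}
    (hrest : (M ∪ {a, b, k}) \ (Y ∪ Nb (dG G M a b k) Y) = {r}) :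
    HasTOK4s (dG G M a b k) (One V) := by
  obtain ⟨p, q, t, hpq, hpt, hqt, hN⟩ := Set.ncard_eq_three.1 h3
  by_cases h1 : κ p = κ q
  · exact h.tri_aux hr hidx hY hb hrest hpq hpt hqt hN h1
  · by_cases h2 : κ p = κ t
    · have h5 : Nb (dG G M a b k) Y = {p, t, q} := by
        rw [hN]; ext x
        simp only [Set.mem_insert_iff, Set.mem_singleton_iff]
        tauto
      exact h.tri_aux hr hidx hY hb hrest hpt hpq hqt.symm h5 h2
    · have h4 : κ q = κ t := eq_of_ne_of_ne (fun hh => h1 hh.symm) (fun hh => h2 hh.symm)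
      have h5 : Nb (dG G M a b k) Y = {q, t, p} := by
        rw [hN]; ext x
        simp only [Set.mem_insert_iff, Set.mem_singleton_iff]
        tauto
      exact h.tri_aux hr hidx hY hb hrest hqt hpq.symm hpt.symm h5 h4

end Pool.Agent.Helper95.SEP
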