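import Pool.Agent.Helper95.SEP.Path
import Pool.Agent.Helper1.GL.Weak

/-!
# The warning set

`G' = dG G M a b k`. A dense balanced set `Y` with three neighbours, `a ∈ Y`, `k ∈ Nb G' Y`,
`b ∉ Y ∪ Nb G' Y`, is impossible.
PROOF. `Y = insert a Y0`, `Y0 ⊆ M` (`k ∉ Y`, `b ∉ Y`) nonempty, `Nb G' Y = {k, u1, u2}`,
`u1, u2 ∈ M` (`b ∉ Nb G' Y`, `a ∈ Y`). `κ a ≠ κ k`. Take `m` from `exists_m`,
`G* = fG G M a k m`, `κ* = update κ m (κ a + 1)`. `Y` is balanced in `G*` for `κ*`,
`Nb G* Y = insert m (Nb G' Y)`, `fden G* Y = fden G' Y + 1` (one more edge `m a` at `Y`; the edge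
`k b` of `G'` does not meet `Y`), `beta κ* (Nb G* Y) ≤ beta κ (Nb G' Y) + 1` (`beta_insert_le`),
so `fO (restr G* Y) κ* Y ≥ beta κ* (Nb G* Y) + 1`.
`Soc false (restr G* Y) κ* Y (Nb G* Y)`: M2: `Y' ⊆ Y`, `|Nb G* Y'| ≤ 3`, `|Y'| ≥ 2`: if `a ∉ Y'` then
`Y' ⊆ M`, `Y' ≠ M` (`u1 ∈ M`), `Nb G* Y' = Nb G Y'`: contradiction to `min`. If `a ∈ Y'`, then
`m, k ∈ Nb G* Y'`, `Y'' = Y' \ {a} ⊆ M` nonempty, `Nb G Y'' ⊆ {a, k, s}`, so `Y'' = {y}` (`min`),
and by `conn` `y ~ a, k`: `κ a ≠ κ y ≠ κ k`, so `κ a = κ k`. Contradiction. Single vertices: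
`fO_singleton_le`. C1: `conn` for `{y}`; `a` has the neighbours `k, m`. C2: the same as M2.
`theoremD` gives the frame `m k | u1 u2`; `tok_of_frame` (as in `W3.tok_of_frames`, `J = restr G* Y`)
with `P` = the edge `m k` of `G*` (weight `1 = κ* m + κ* k + 1`), `R` = the path of `MinSide.path`
(mapped to `G*`; its vertices are in `(M \ Y0) ∪ {b}`, so it avoids `Y`, `m`, `k`) gives a TOK4 of `G*`:
contradiction to `link`.
-/

set_option autoImplicit false

namespace Pool.Agent.Helper95.SEP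

open SimpleGraph Pool.Agent.Helper57.TOK Pool.Agent.Helper57.TD Pool.Agent.Helper57.TOP
  Pool.Agent.Helper82.TK Pool.Agent.Helper1.GL

variable {V : Type*} {G : SimpleGraph V} {U M : Set V} {a b k : V}

theorem MinSide.warn [Finite V] (h : MinSide G U M) (hr : Roots G M a b k)
    {Y : Set V} (hY : Y ⊆ M ∪ {a, b, k}) (h2 : 2 ≤ Y.ncard) {κ : V → ZMod 2}
    (hb : BalOn (dG G M a b k) (One V) Y κ)
    (h3 : (Nb (dG G M a b k) Y).ncard = 3)
    (hd : beta κ (Nb (dG G M a b k) Y) < fden (dG G M a b k) Y)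
    (haY : a ∈ Y) (hkN : k ∈ Nb (dG G M a b k) Y) (hbY : b ∉ Y)
    (hbN : b ∉ Nb (dG G M a b k) Y) : False := by
  classical
  obtain ⟨m, -, hmM, hmN⟩ := h.exists_m
  have hma : m ≠ a := fun hh => hmN (hh ▸ hr.ma)
  have hmb : m ≠ b := fun hh => hmN (hh ▸ hr.mb)
  have hmk : m ≠ k := fun hh => hmN (hh ▸ hr.mc)
  have hkY : k ∉ Y := hkN.1
  have hYM : ∀ x ∈ Y, x ≠ a → x ∈ M := by
    intro x hx hxa
    rcases hY hx with h1 | h1 | h1 | h1
    · exact h1
    · exact absurd h1 hxa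
    · exact absurd (h1 ▸ hx) hbY
    · exact absurd (h1 ▸ hx) hkY
  have hmY : m ∉ Y := fun hh => hmM (hYM m hh hma)
  -- the three neighbours
  have hNM : ∀ x ∈ Nb (dG G M a b k) Y, x ≠ k → x ∈ M := by
    rintro x hx hxk
    obtain ⟨h1, u, hu, hux⟩ := id hx
    rcases dG_mem hr hux.symm with h4 | h4 | h4 | h4
    · exact h4
    · exact absurd (h4 ▸ haY) h1
    · exact absurd (Eq.subst (motive := fun z => z ∈ Nb (dG G M a b k) Y) h4 hx) hbN
    · exact absurd h4 hxk
  have hcard : (Nb (dG G M a b k) Y \ {k}).ncard = 2 := by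
    rw [Set.ncard_sdiff_singleton_of_mem hkN, h3]
  obtain ⟨u1, u2, h12, hu12⟩ := Set.ncard_eq_two.1 hcard
  have mu1 : u1 ∈ Nb (dG G M a b k) Y \ {k} := by rw [hu12]; simp
  have mu2 : u2 ∈ Nb (dG G M a b k) Y \ {k} := by rw [hu12]; simp
  have h1k : u1 ≠ k := mu1.2
  have h2k : u2 ≠ k := mu2.2
  have h1M : u1 ∈ M := hNM u1 mu1.1 h1k
  have h2M : u2 ∈ M := hNM u2 mu2.1 h2k
  have hNcases : ∀ x ∈ Nb (dG G M a b k) Y, x = k ∨ x = u1 ∨ x = u2 := by
    intro x hx
    by_cases hxk : x = k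
    · exact Or.inl hxk
    · right
      have h4 : x ∈ Nb (dG G M a b k) Y \ {k} := ⟨hx, hxk⟩
      rw [hu12] at h4
      simpa using h4
  have hbal : ∀ u v, u ∈ Y → (dG G M a b k).Adj u v → κ u ≠ κ v := by
    intro u v hu huv
    exact add_eq_one_iff.1 (hb u v hu huv).symm
  have hak : κ a ≠ κ k := hbal a k haY (dG_ka hr).symm
  set Y0 : Set V := Y \ {a} with hY0def
  have hY0 : Y0 ⊆ M := fun x hx => hYM x hx.1 hx.2
  have hne : Y0.Nonempty := by
    rw [← Set.ncard_pos (Set.toFinite _), hY0def, Set.ncard_sdiff_singleton_of_mem haY]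
    omega
  obtain ⟨R, hRp, hRw, hRs⟩ := h.path hr hY0 hne h12 h1M h2M (fun hh => mu1.1.1 hh.1)
    (fun hh => mu2.1.1 hh.1) (by
      intro x hx y hxy
      have h4 : (dG G M a b k).Adj x y := (dG_adj_M hr (hY0 hx)).2 hxy
      by_cases hy : y ∈ Y
      · by_cases hya : y = a
        · exact Or.inr (Or.inl hya)
        · exact Or.inl ⟨hy, hya⟩
      · rcases hNcases y ⟨hy, x, hx.1, h4⟩ with h5 | h5 | h5
        · exact Or.inr (Or.inr (Or.inl h5))
        · exact Or.inr (Or.inr (Or.inr (Or.inl h5)))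
        · exact Or.inr (Or.inr (Or.inr (Or.inr h5)))) (by
      intro y hyM hay
      have h4 : (dG G M a b k).Adj a y := (dG_adj_a hr).2 (Or.inl ⟨hay, hyM⟩)
      by_cases hy : y ∈ Y
      · exact Or.inl ⟨hy, fun hya => hr.aM ((show y = a from hya) ▸ hyM)⟩
      · rcases hNcases y ⟨hy, a, haY, h4⟩ with h5 | h5 | h5
        · exact absurd (h5 ▸ hyM) hr.kM
        · exact Or.inr (Or.inl h5)
        · exact Or.inr (Or.inr h5)) (κ := κ) (by
      intro x hx y hxy
      exact hbal x y hx.1 ((dG_adj_M hr (hY0 hx)).2 hxy)) (by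
      intro y hyM hay
      exact hbal a y haY ((dG_adj_a hr).2 (Or.inl ⟨hay, hyM⟩)))
  -- the graph with the flexible link
  set G2 := fG G M a k m with hG2
  have hmadj : ∀ x, x ∈ M → ¬ G.Adj x m := by
    intro x hx hxm
    exact hmN ⟨hmM, x, hx, hxm⟩
  have key : ∀ x ∈ Y, ∀ y, G2.Adj x y ↔ (dG G M a b k).Adj x y ∨ (x = a ∧ y = m) := by
    intro x hx y
    by_cases hxa : x = a
    · subst hxa
      rw [hG2, fG_adj, dG_adj_a hr]
      constructor
      · rintro (⟨h4, h5 | h5⟩ | ⟨-, h4 | h4 | h4⟩)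
        · exact absurd h5 hr.aM
        · exact Or.inl (Or.inl ⟨h4, h5⟩)
        · rw [Sym2.eq_iff] at h4
          rcases h4 with ⟨-, h4⟩ | ⟨h4, -⟩
          · exact Or.inl (Or.inr h4)
          · exact absurd h4 hr.ak
        · rw [Sym2.eq_iff] at h4
          rcases h4 with ⟨h4, -⟩ | ⟨-, h4⟩
          · exact absurd h4.symm hma
          · exact Or.inr ⟨rfl, h4⟩
        · rw [Sym2.eq_iff] at h4
          rcases h4 with ⟨h4, -⟩ | ⟨h4, -⟩
          · exact absurd h4.symm hma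
          · exact absurd h4 hr.ak
      · rintro ((⟨h4, h5⟩ | rfl) | ⟨-, rfl⟩)
        · exact Or.inl ⟨h4, Or.inr h5⟩
        · exact Or.inr ⟨hr.ak, Or.inl rfl⟩
        · exact Or.inr ⟨hma.symm, Or.inr (Or.inl Sym2.eq_swap)⟩
    · have hxM : x ∈ M := hYM x hx hxa
      rw [hG2, fG_adj, dG_adj_M hr hxM]
      constructor
      · rintro (⟨h4, -⟩ | ⟨-, h4 | h4 | h4⟩)
        · exact Or.inl h4
        · rw [Sym2.eq_iff] at h4
          rcases h4 with ⟨h4, -⟩ | ⟨h4, -⟩
          · exact absurd h4 hxa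
          · exact absurd (h4 ▸ hx) hkY
        · rw [Sym2.eq_iff] at h4
          rcases h4 with ⟨h4, -⟩ | ⟨h4, -⟩
          · exact absurd (h4 ▸ hx) hmY
          · exact absurd h4 hxa
        · rw [Sym2.eq_iff] at h4
          rcases h4 with ⟨h4, -⟩ | ⟨h4, -⟩
          · exact absurd (h4 ▸ hx) hmY
          · exact absurd (h4 ▸ hx) hkY
      · rintro (h4 | ⟨h4, -⟩)
        · exact Or.inl ⟨h4, Or.inl hxM⟩
        · exact absurd h4 hxa
  have hdm : ∀ x, ¬ (dG G M a b k).Adj x m := by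
    intro x hx
    rcases dG_mem hr hx.symm with h4 | h4 | h4 | h4
    · exact hmM h4
    · exact hma h4
    · exact hmb h4
    · exact hmk h4
  have hmN' : m ∉ Nb (dG G M a b k) Y := by
    rintro ⟨-, u, -, hum⟩
    exact hdm u hum
  have hNb : Nb G2 Y = insert m (Nb (dG G M a b k) Y) := by
    ext y
    constructor
    · rintro ⟨hy, u, hu, huy⟩
      rcases (key u hu y).1 huy with h4 | ⟨-, h4⟩
      · exact Or.inr ⟨hy, u, hu, h4⟩
      · exact Or.inl h4
    · rintro (rfl | ⟨hy, u, hu, huy⟩)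
      · exact ⟨hmY, a, haY, (key a haY y).2 (Or.inr ⟨rfl, rfl⟩)⟩
      · exact ⟨hy, u, hu, (key u hu y).2 (Or.inl huy)⟩
  have hT4 : (Nb G2 Y).ncard = 4 := by
    rw [hNb, Set.ncard_insert_of_notMem hmN' (Set.toFinite _), h3]
  have hrho : rho G2 Y = rho (dG G M a b k) Y + 1 := by
    unfold rho
    have h4 : EAt G2 Y = insert s(m, a) (EAt (dG G M a b k) Y) := by
      ext e
      induction e using Sym2.ind with
      | _ x y =>
        rw [mem_EAt, Set.mem_insert_iff, mem_EAt]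
        constructor
        · rintro ⟨h5, h6 | h6⟩
          · rcases (key x h6 y).1 h5 with h7 | ⟨rfl, rfl⟩
            · exact Or.inr ⟨h7, Or.inl h6⟩
            · exact Or.inl Sym2.eq_swap
          · rcases (key y h6 x).1 h5.symm with h7 | ⟨rfl, rfl⟩
            · exact Or.inr ⟨h7.symm, Or.inr h6⟩
            · exact Or.inl rfl
        · rintro (h5 | ⟨h5, h6 | h6⟩)
          · rw [Sym2.eq_iff] at h5
            rcases h5 with ⟨rfl, rfl⟩ | ⟨rfl, rfl⟩
            · exact ⟨((key y haY x).2 (Or.inr ⟨rfl, rfl⟩)).symm, Or.inr haY⟩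
            · exact ⟨(key x haY y).2 (Or.inr ⟨rfl, rfl⟩), Or.inl haY⟩
          · exact ⟨(key x h6 y).2 (Or.inl h5), Or.inl h6⟩
          · exact ⟨((key y h6 x).2 (Or.inl h5.symm)).symm, Or.inr h6⟩
    rw [h4, Set.ncard_insert_of_notMem ?_ (Set.toFinite _)]
    rw [mem_EAt]
    rintro ⟨h5, -⟩
    exact hdm a h5.symm
  set κ' : V → ZMod 2 := Function.update κ m (κ a + 1) with hκ'
  have hκm : κ' m = κ a + 1 := by rw [hκ', Function.update_self]
  have hκo : ∀ x, x ≠ m → κ' x = κ x := by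
    intro x hx
    rw [hκ', Function.update_of_ne hx]
  have hYm : ∀ x ∈ Y, x ≠ m := fun x hx hh => hmY (hh ▸ hx)
  have hb2 : BalOn G2 (One V) Y κ' := by
    intro u v hu huv
    rw [hκo u (hYm u hu)]
    rcases (key u hu v).1 huv with h4 | ⟨rfl, rfl⟩
    · have hvm : v ≠ m := fun hh => hdm u (hh ▸ h4)
      rw [hκo v hvm]
      exact hb u v hu h4
    · rw [hκm]
      show (1 : ZMod 2) = κ u + (κ u + 1)
      generalize κ u = x
      revert x
      decide
  -- small subsets
  have hYne : u1 ∉ Y := mu1.1.1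
  have hsmall : ∀ Y' ⊆ Y, 2 ≤ Y'.ncard → (Nb G2 Y').ncard ≤ 3 → False := by
    intro Y' hY' h4 h5
    have hsub : Y' \ {a} ⊆ M := fun x hx => hYM x (hY' hx.1) hx.2
    have hneM : Y' \ {a} ≠ M := by
      intro hh
      have : u1 ∈ Y' \ {a} := hh ▸ h1M
      exact hYne (hY' this.1)
    by_cases haY' : a ∈ Y'
    · have hmN2 : m ∈ Nb G2 Y' := ⟨fun hh => hmY (hY' hh), a, haY',
        (key a haY m).2 (Or.inr ⟨rfl, rfl⟩)⟩
      have hkN2 : k ∈ Nb G2 Y' := ⟨fun hh => hkY (hY' hh), a, haY',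
        (key a haY k).2 (Or.inl (dG_ka hr).symm)⟩
      have h6 : Nb G (Y' \ {a}) ⊆ insert a (Nb G2 Y' \ {m}) := by
        rintro x ⟨hx, u, hu, hux⟩
        by_cases hxa : x = a
        · exact Or.inl hxa
        · right
          have huM := hsub hu
          refine ⟨⟨fun hh => hx ⟨hh, hxa⟩, u, hu.1, ?_⟩, ?_⟩
          · exact (key u (hY' hu.1) x).2 (Or.inl ((dG_adj_M hr huM).2 hux))
          · intro hh
            exact hmadj u huM ((show x = m from hh) ▸ hux)
      have h7 : (insert a (Nb G2 Y' \ {m})).ncard ≤ 3 := by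
        refine (Set.ncard_insert_le _ _).trans ?_
        rw [Set.ncard_sdiff_singleton_of_mem hmN2]
        omega
      have h8 := h.min (Y' \ {a}) hsub hneM
        ((Set.ncard_le_ncard h6 (Set.toFinite _)).trans h7)
      have h9 : (Y' \ {a}).Nonempty := by
        rw [← Set.ncard_pos (Set.toFinite _), Set.ncard_sdiff_singleton_of_mem haY']
        omega
      have h10 := h.conn (Y' \ {a}) hsub h9
      have h11 : Nb G (Y' \ {a}) = insert a (Nb G2 Y' \ {m}) :=
        Set.eq_of_subset_of_ncard_le h6 (by omega) (Set.toFinite _)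
      obtain ⟨y, hy⟩ := h9
      have hone : ∀ x ∈ Y' \ {a}, x = y := fun x hx => eq_of_ncard_le_one h8 hx hy
      have ya : G.Adj y a := by
        have : a ∈ Nb G (Y' \ {a}) := by rw [h11]; exact Set.mem_insert _ _
        obtain ⟨-, u, hu, hua⟩ := this
        rw [hone u hu] at hua
        exact hua
      have yk : G.Adj y k := by
        have : k ∈ Nb G (Y' \ {a}) := by
          rw [h11]; exact Or.inr ⟨hkN2, hmk.symm⟩
        obtain ⟨-, u, hu, hua⟩ := this
        rw [hone u hu] at hua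
        exact hua
      have g1 := hbal y a (hY' hy.1) ((dG_adj_M hr (hsub hy)).2 ya)
      have g2 := hbal y k (hY' hy.1) ((dG_adj_M hr (hsub hy)).2 yk)
      exact hak (eq_of_ne_of_ne g1.symm g2.symm)
    · have hsub' : Y' ⊆ M := fun x hx => hYM x (hY' hx) (fun hh => haY' (hh ▸ hx))
      have h6 : Nb G2 Y' = Nb G Y' := by
        apply Nb_congr
        intro u v hu _
        have hua : u ≠ a := fun hh => haY' (hh ▸ hu)
        rw [key u (hY' hu) v, dG_adj_M hr (hsub' hu)]
        constructor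
        · rintro (h7 | ⟨h7, -⟩)
          · exact h7
          · exact absurd h7 hua
        · exact Or.inl
      rw [h6] at h5
      have h7 := h.min Y' hsub' (fun hh => hYne (hY' (hh ▸ h1M))) h5
      omega
  have hN2 : ∀ y ∈ Y, ∀ z, G2.Adj y z → z ∈ Y ∪ Nb G2 Y := by
    intro y hy z hyz
    by_cases hz : z ∈ Y
    · exact Or.inl hz
    · exact Or.inr ⟨hz, y, hy, hyz⟩
  have hsoc : Soc false (restr G2 Y) κ' Y (Nb G2 Y) :=
    { T4 := hT4
      disj := by
        rw [Set.disjoint_left]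
        intro x hx hx'
        exact hx'.1 hx
      edge_mem := by
        rintro u v ⟨h4, h5⟩
        rcases h5 with h5 | h5
        · exact Or.inl h5
        · exact hN2 v h5 u h4.symm
      edge_S := fun u v huv => huv.2
      M1 := by
        rw [fO_restr G2 κ' subset_rfl, fO_of_balOn hb2, odG_one]
        show beta κ' (Nb G2 Y) + 1 ≤ fden G2 Y
        have h4 : beta κ' (Nb G2 Y) ≤ beta κ' (Nb (dG G M a b k) Y) + 1 := by
          rw [hNb]; exact beta_insert_le
        have h5 : beta κ' (Nb (dG G M a b k) Y) = beta κ (Nb (dG G M a b k) Y) :=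
          beta_congr fun x hx => hκo x (fun hh => hmN' (hh ▸ hx))
        have h6 : fden G2 Y = fden (dG G M a b k) Y + 1 := by
          unfold fden
          rw [hrho]
          push_cast
          ring
        rw [h6]
        omega
      TT := fun hh => absurd hh (by decide)
      M2 := by
        intro Y' hY' hne' hc
        rw [Nb_restr G2 hY'] at hc ⊢
        rw [fO_restr G2 κ' hY']
        by_cases h4 : 2 ≤ Y'.ncard
        · exact absurd (hsmall Y' hY' h4 hc) (fun h => h)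
        · have hpos : 0 < Y'.ncard := (Set.ncard_pos (Set.toFinite _)).2 hne'
          obtain ⟨s, rfl⟩ := Set.ncard_eq_one.1 (by omega : Y'.ncard = 1)
          apply fO_singleton_le
          have hs : s ∈ Y := hY' rfl
          by_cases hsa : s = a
          · subst hsa
            exact ⟨m, (key s haY m).2 (Or.inr ⟨rfl, rfl⟩)⟩
          · have hsM := hYM s hs hsa
            have h5 := h.conn {s} (Set.singleton_subset_iff.2 hsM) (Set.singleton_nonempty s)
            rw [Nb_singleton] at h5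
            obtain ⟨z, hz⟩ := (Set.ncard_pos (Set.toFinite _)).1
              (by omega : 0 < (G.neighborSet s).ncard)
            exact ⟨z, (key s hs z).2 (Or.inl ((dG_adj_M hr hsM).2 hz))⟩
      C1 := by
        intro s hs
        rw [neighborSet_restr G2 hs]
        by_cases hsa : s = a
        · subst hsa
          exact two_le_ncard_of (a := m) (b := k) ((key s haY m).2 (Or.inr ⟨rfl, rfl⟩))
            ((key s haY k).2 (Or.inl (dG_ka hr).symm)) hmk
        · have hsM := hYM s hs hsa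
          have h5 := h.conn {s} (Set.singleton_subset_iff.2 hsM) (Set.singleton_nonempty s)
          rw [Nb_singleton] at h5
          have h6 : G.neighborSet s ⊆ G2.neighborSet s := fun z hz =>
            (key s hs z).2 (Or.inl ((dG_adj_M hr hsM).2 hz))
          have h7 := Set.ncard_le_ncard h6 (Set.toFinite _)
          omega
      C2 := by
        intro Y' hY' h4
        rw [Nb_restr G2 hY']
        by_contra hlt
        exact hsmall Y' hY' h4 (by omega) }
  have hF := theoremD _ _ _ _ hsoc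
  have mk' : ∀ x, x ∈ Nb (dG G M a b k) Y → x ∈ Nb G2 Y := fun x hx => by
    rw [hNb]; exact Or.inr hx
  have mm : m ∈ Nb G2 Y := by rw [hNb]; exact Or.inl rfl
  have hm1 : m ≠ u1 := fun hh => hmM (hh ▸ h1M)
  have hm2 : m ≠ u2 := fun hh => hmM (hh ▸ h2M)
  have hFr := hF m mm k (mk' k hkN) u1 (mk' u1 mu1.1) u2 (mk' u2 mu2.1) hmk hm1 hm2 h1k.symm
    h2k.symm h12
  have hno : ∀ x ∈ Nb G2 Y, ∀ y ∈ Nb G2 Y, ¬ (restr G2 Y).Adj x y := by
    rintro x hx y hy ⟨-, h4 | h4⟩
    · exact hx.1 h4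
    · exact hy.1 h4
  have hlab : ∀ x y, (restr G2 Y).Adj x y → (1 : ZMod 2) = κ' x + κ' y := by
    rintro x y ⟨h4, h5 | h5⟩
    · exact hb2 x y h5 h4
    · rw [add_comm]; exact hb2 y x h5 h4.symm
  have hle : restr G M ≤ G2 := by
    rintro x y ⟨h4, h5⟩
    exact fG_adj.2 (Or.inl ⟨h4, h5⟩)
  have hmk2 : G2.Adj m k := fG_adj.2 (Or.inr ⟨hmk, Or.inr (Or.inr rfl)⟩)
  refine h.link a hr.ma k hr.mc hr.ak m hmM hmN ?_
  refine tok_of_frame (J := restr G2 Y) (κ := κ') (F := Y) (Q := Nb G2 Y) (restr_le G2 Y) hlab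
    ⟨restr G2 Y, le_rfl, supp_restr, hno m mm k (mk' k hkN), hno u1 (mk' u1 mu1.1) u2
      (mk' u2 mu2.1), hFr⟩ (Or.inr mm) (Or.inr (mk' k hkN)) (Or.inr (mk' u1 mu1.1))
    (Or.inr (mk' u2 mu2.1)) (Walk.cons hmk2 Walk.nil) (R.mapLe hle) ?_
    ((Walk.isPath_mapLe hle).2 hRp) ?_ ?_ ?_ ?_ ?_
  · simp [hmk]
  · rw [wt_cons, wt_nil, hκm, hκo k hmk.symm]
    have h4 := add_eq_one_iff.2 hak
    show (1 : ZMod 2) + 0 = κ a + 1 + κ k + 1
    have h5 : κ a + 1 + κ k + 1 = κ a + κ k + (1 + 1) := by ring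
    rw [h5, h4]
    decide
  · rw [wt_mapLe, hRw, hκo u1 hm1.symm, hκo u2 hm2.symm]
  · intro x hx hx'
    rw [Walk.support_mapLe_eq_support] at hx'
    have hx2 : x = m ∨ x = k := by simpa using hx
    rcases hRs x hx' with ⟨h4, -⟩ | h4
    · rcases hx2 with rfl | rfl
      · exact hmM h4
      · exact hr.kM h4
    · rcases hx2 with rfl | rfl
      · exact hmb h4
      · exact hr.bk h4.symm
  · intro x hx _
    simpa using hx
  · intro x hx hxF
    rw [Walk.support_mapLe_eq_support] at hx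
    rcases hRs x hx with ⟨h4, h5⟩ | h4
    · rcases hxF with h6 | h6
      · exact absurd ⟨h6, fun hxa => hr.aM ((show x = a from hxa) ▸ h4)⟩ h5
      · rw [hNb] at h6
        rcases h6 with h6 | h6
        · exact absurd (h6 ▸ h4) hmM
        · rcases hNcases x h6 with h7 | h7 | h7
          · exact absurd (h7 ▸ h4) hr.kM
          · exact Or.inl h7
          · exact Or.inr h7
    · subst h4
      rcases hxF with h6 | h6
      · exact absurd h6 hbY
      · rw [hNb] at h6
        rcases h6 with h6 | h6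
        · exact absurd h6.symm hmb
        · exact absurd h6 hbN

end Pool.Agent.Helper95.SEP
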