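import Pool.Agent.Helper95.SEP.Apex
import Pool.Agent.Helper95.SEP.Tri
import Pool.Agent.Helper95.SEP.Warn

/-!
# `M + D_k` has a TOK4 for at least two `k`

`dG_index`: if there is no interior apex of pattern `k` then `dG G M a b k` has index at least two
(`noapex` for the roots). `dG_tok`: then `dG G M a b k` has a TOK4: otherwise it is not in `Ex3`
(`IH`; `M ∪ {a, b, k}` is smaller than `U` by `rest`), all fields hold except `sparse`
(dens: `2 |M| + 6 ≤ fden G M + 2 |M| + 2 + 2`), and a dense balanced `Y` is excluded by `Tri`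
(`{a, b, k} ⊆ Y ∪ Nb`: the rest is a proper subset of `M` with at most three neighbours, so it has
one element by `min`) or `Warn` (`a ∈ Y`, `b` in the rest, or conversely; `Y ∩ {a, b, k} = ∅`
is excluded by `min`).
-/

set_option autoImplicit false

namespace Pool.Agent.Helper95.SEP

open SimpleGraph Pool.Agent.Helper57.TOK Pool.Agent.Helper57.TD Pool.Agent.Helper57.TOP
  Pool.Agent.Helper82.TK

variable {V : Type*} {G : SimpleGraph V} {U M : Set V} {a b k : V}

theorem MinSide.dG_index [Finite V] (h : MinSide G U M) (hr : Roots G M a b k)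
    (hap : ¬ Apx G M a b k) (w : V) (κ : V → ZMod 2) :
    ¬ BalOff (dG G M a b k) (One V) {w} κ := by
  intro hκ
  have hne : ∀ u v, u ≠ w → v ≠ w → (dG G M a b k).Adj u v → κ u ≠ κ v := by
    intro u v hu hv huv
    exact add_eq_one_iff.1 (hκ u v (by simpa using hu) (by simpa using hv) huv).symm
  by_cases hwM : w ∈ M
  · apply hap
    refine ⟨w, hwM, κ, ?_, ?_, ?_⟩
    · have h1 := hne k a (fun hh => hr.kM (hh ▸ hwM)) (fun hh => hr.aM (hh ▸ hwM)) (dG_ka hr)
      have h2 := hne k b (fun hh => hr.kM (hh ▸ hwM)) (fun hh => hr.bM (hh ▸ hwM)) (dG_kb hr)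
      exact eq_of_ne_of_ne h1.symm h2.symm
    · exact hne k a (fun hh => hr.kM (hh ▸ hwM)) (fun hh => hr.aM (hh ▸ hwM)) (dG_ka hr)
    · intro u v hu huw hvw huv
      exact hne u v huw hvw ((dG_adj_M hr hu).2 huv)
  · have key : ∀ l ∈ Nb G M, (w = l ∨ w ∉ Nb G M) → False := by
      intro l hl hw
      apply h.noapex l hl κ
      intro u v hu hvl huv
      have huw : u ≠ w := fun hh => hwM (hh ▸ hu)
      have hvw : v ≠ w := by
        rintro rfl
        rcases hw with hw | hw
        · exact hvl hw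
        · exact hw ⟨hwM, u, hu, huv⟩
      exact hne u v huw hvw ((dG_adj_M hr hu).2 huv)
    by_cases hwN : w ∈ Nb G M
    · exact key w hwN (Or.inl rfl)
    · exact key a hr.ma (Or.inr hwN)

/-- The number of edges. -/
lemma dG_edges [Finite V] (hr : Roots G M a b k) :
    (dG G M a b k).edgeSet.ncard = rho G M + 2 := by
  classical
  have h1 : (dG G M a b k).edgeSet = EAt G M ∪ {s(k, a), s(k, b)} := by
    ext e
    induction e using Sym2.ind with
    | _ x y =>
      rw [SimpleGraph.mem_edgeSet, dG_adj]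
      simp only [Set.mem_union, Set.mem_insert_iff, Set.mem_singleton_iff]
      rw [mem_EAt]
      constructor
      · rintro (h1 | ⟨-, h1⟩)
        · exact Or.inl h1
        · exact Or.inr h1
      · rintro (h1 | h1)
        · exact Or.inl h1
        · refine Or.inr ⟨?_, h1⟩
          rintro rfl
          rcases h1 with h1 | h1
          · rw [Sym2.eq_iff] at h1
            rcases h1 with ⟨h2, h3⟩ | ⟨h2, h3⟩
            · exact hr.ak (h3.symm.trans h2)
            · exact hr.ak (h2.symm.trans h3)
          · rw [Sym2.eq_iff] at h1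
            rcases h1 with ⟨h2, h3⟩ | ⟨h2, h3⟩
            · exact hr.bk (h3.symm.trans h2)
            · exact hr.bk (h2.symm.trans h3)
  have h2 : Disjoint (EAt G M) {s(k, a), s(k, b)} := by
    rw [Set.disjoint_right]
    rintro e (rfl | he)
    · rw [mem_EAt]
      rintro ⟨-, h3 | h3⟩
      · exact hr.kM h3
      · exact hr.aM h3
    · rw [Set.mem_singleton_iff] at he
      subst he
      rw [mem_EAt]
      rintro ⟨-, h3 | h3⟩
      · exact hr.kM h3
      · exact hr.bM h3
  have h3 : s(k, a) ≠ s(k, b) := by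
    intro h4
    rw [Sym2.eq_iff] at h4
    rcases h4 with ⟨-, h5⟩ | ⟨h5, -⟩
    · exact hr.ab h5
    · exact hr.bk h5.symm
  rw [h1, Set.ncard_union_eq h2 (Set.toFinite _) (Set.toFinite _), Set.ncard_pair h3]
  rfl

/-- The size of the vertex set. -/
lemma MinSide.card_roots [Finite V] (h : MinSide G U M) (hr : Roots G M a b k) :
    (M ∪ {a, b, k}).ncard = M.ncard + 3 := by
  have h1 : Disjoint M {a, b, k} := by
    rw [← hr.eq, Set.disjoint_right]
    exact fun x hx => hx.1
  rw [Set.ncard_union_eq h1 (Set.toFinite _) (Set.toFinite _), ← hr.eq, h.three]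

theorem MinSide.dG_tok [Finite V] (h : MinSide G U M) (hr : Roots G M a b k)
    (hap : ¬ Apx G M a b k) : HasTOK4s (dG G M a b k) (One V) := by
  classical
  by_contra hno
  have hidx := h.dG_index hr hap
  have hOne : odG (dG G M a b k) (Pool.Agent.Helper57.TOP.One V) = dG G M a b k := odG_one _
  have hsub : M ∪ {a, b, k} ⊆ U := by
    rw [← hr.eq]
    rintro x (hx | ⟨-, u, -, hux⟩)
    · exact h.sub hx
    · exact h.edge_mem x u hux.symm
  have hsmall : (M ∪ {a, b, k}).ncard < U.ncard := by
    have h1 := Set.ncard_sdiff_add_ncard_of_subset hsub (Set.toFinite _)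
    have h2 := h.rest
    rw [hr.eq] at h2
    omega
  refine hno (h.IH _ _ ⟨?_, ?_, ?_, ?_, ?_, ?_⟩ hsmall)
  · exact fun u v huv => dG_mem hr huv
  · intro y hy
    have := h.dG_deg3 hr hy
    omega
  · intro Y hY hY2 hN
    have hne : Y.Nonempty := by
      rw [← Set.ncard_pos (Set.toFinite _)]
      omega
    have h1 := h.dG_conn hr hY hne hN
    have h2 : (M ∪ {a, b, k}) \ (Y ∪ Nb (dG G M a b k) Y) = ∅ := Set.sdiff_eq_empty.2 h1
    rw [h2, Set.ncard_empty]
    exact Nat.zero_le _
  · rw [hOne, dG_edges hr, h.card_roots hr]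
    have h1 := h.f2
    unfold fden at h1
    omega
  · exact hidx
  · intro Y hY hY2 hY3 hrest κ hb
    rw [hOne]
    by_contra hd
    push Not at hd
    -- a subset of `M` is impossible
    have hnotM : ¬ Y ⊆ M := by
      intro hYM
      rw [Nb_dG hr hYM] at hY3
      have hne : Y ≠ M := by
        rintro rfl
        obtain ⟨x, hx, hx'⟩ := hrest
        rcases hx with hx | hx
        · exact hx' (Or.inl hx)
        · rw [Nb_dG hr hYM, hr.eq] at hx'
          exact hx' (Or.inr hx)
      have := h.min Y hYM hne hY3.le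
      omega
    by_cases hcov : ({a, b, k} : Set V) ⊆ Y ∪ Nb (dG G M a b k) Y
    · -- the rest is a subset of `M`
      set Z : Set V := (M ∪ {a, b, k}) \ (Y ∪ Nb (dG G M a b k) Y) with hZ
      have hZM : Z ⊆ M := by
        rintro x ⟨hx | hx, hx'⟩
        · exact hx
        · exact absurd (hcov hx) hx'
      have hNZ : Nb (dG G M a b k) Z ⊆ Nb (dG G M a b k) Y := by
        rintro v ⟨hv, u, hu, huv⟩
        have hvU : v ∈ M ∪ {a, b, k} := dG_mem hr huv.symm
        have hvY : v ∉ Y := by
          intro hvY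
          exact hu.2 (Or.inr ⟨fun h5 => hu.2 (Or.inl h5), v, hvY, huv.symm⟩)
        by_contra hvN
        exact hv ⟨hvU, fun h5 => h5.elim hvY hvN⟩
      have hZne : Z ≠ M := by
        intro hh
        obtain ⟨y, hy⟩ : Y.Nonempty := by
          rw [← Set.ncard_pos (Set.toFinite _)]; omega
        have hyM : y ∉ M := by
          intro h5
          rw [← hh] at h5
          exact h5.2 (Or.inl hy)
        have hyN : y ∈ Nb G M := by
          rw [hr.eq]
          exact (hY hy).resolve_left hyM
        obtain ⟨-, u, hu, huy⟩ := hyN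
        have huZ : u ∈ Z := hh ▸ hu
        exact huZ.2 (Or.inr ⟨fun h5 => huZ.2 (Or.inl h5), y, hy,
          ((dG_adj_M hr hu).2 huy).symm⟩)
      have hZ1 : Z.ncard ≤ 1 := by
        apply h.min Z hZM hZne
        rw [← Nb_dG hr hZM]
        exact (Set.ncard_le_ncard hNZ (Set.toFinite _)).trans hY3.le
      have hZpos := (Set.ncard_pos (Set.toFinite _)).2 hrest
      obtain ⟨r, hr'⟩ := Set.ncard_eq_one.1 (by omega : Z.ncard = 1)
      exact hno (h.tri hr hidx hY hb hY3 hr')
    · -- some root is in the rest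
      rw [Set.not_subset] at hcov
      obtain ⟨l, hl, hlr⟩ := hcov
      have hlr' : l ∉ Y ∧ l ∉ Nb (dG G M a b k) Y :=
        ⟨fun h5 => hlr (Or.inl h5), fun h5 => hlr (Or.inr h5)⟩
      have hback : ∀ x y, (dG G M a b k).Adj x y → y ∉ Y → y ∉ Nb (dG G M a b k) Y → x ∉ Y :=
        fun x y hxy h5 h6 h7 => h6 ⟨h5, x, h7, hxy⟩
      have hYk : k ∉ Y := by
        intro hk
        rcases hl with rfl | rfl | rfl
        · exact hback _ _ (dG_ka hr) hlr'.1 hlr'.2 hk
        · exact hback _ _ (dG_kb hr) hlr'.1 hlr'.2 hk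
        · exact hlr'.1 hk
      have hsomething : a ∈ Y ∨ b ∈ Y := by
        by_contra hcon
        rw [not_or] at hcon
        apply hnotM
        intro x hx
        rcases hY hx with h5 | rfl | rfl | rfl
        · exact h5
        · exact absurd hx hcon.1
        · exact absurd hx hcon.2
        · exact absurd hx hYk
      rcases hsomething with ha | hb'
      · have hkN : k ∈ Nb (dG G M a b k) Y := ⟨hYk, a, ha, (dG_ka hr).symm⟩
        have hlb : l = b := by
          rcases hl with rfl | rfl | rfl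
          · exact absurd ha hlr'.1
          · rfl
          · exact absurd hkN hlr'.2
        subst hlb
        exact h.warn hr hY hY2 hb hY3 hd ha hkN hlr'.1 hlr'.2
      · have hkN : k ∈ Nb (dG G M a b k) Y := ⟨hYk, b, hb', (dG_kb hr).symm⟩
        have hla : l = a := by
          rcases hl with rfl | rfl | rfl
          · rfl
          · exact absurd hb' hlr'.1
          · exact absurd hkN hlr'.2
        subst hla
        rw [dG_comm] at hb hY3 hd hkN hlr'
        refine h.warn hr.swap ?_ hY2 hb hY3 hd hb' hkN hlr'.1 hlr'.2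
        rw [← hr.eq, hr.swap.eq] at hY
        exact hY

/-- At least two of the three graphs have a TOK4. -/
theorem MinSide.two_of_three [Finite V] (h : MinSide G U M) (hr : Roots G M a b k) :
    (HasTOK4s (dG G M a b k) (One V) ∧ HasTOK4s (dG G M b k a) (One V)) ∨
    (HasTOK4s (dG G M a b k) (One V) ∧ HasTOK4s (dG G M k a b) (One V)) ∨
    (HasTOK4s (dG G M b k a) (One V) ∧ HasTOK4s (dG G M k a b) (One V)) := by
  have hc : ∀ {p q s : V}, Apx G M p q s → Apx G M q p s := by
    rintro p q s ⟨z, hz, κ, h1, h2, h3⟩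
    exact ⟨z, hz, κ, h1.symm, h1 ▸ h2, h3⟩
  -- pattern `k`, pattern `a`, pattern `b`
  have hka : ¬ (Apx G M a b k ∧ Apx G M b k a) := fun hh => h.one_apex hr hh.1 (hc hh.2)
  have hkb : ¬ (Apx G M a b k ∧ Apx G M k a b) := fun hh =>
    h.one_apex hr.swap (hc hh.1) hh.2
  have hab : ¬ (Apx G M b k a ∧ Apx G M k a b) := fun hh =>
    h.one_apex hr.rot hh.1 (hc hh.2)
  by_cases h1 : Apx G M a b k
  · right; right
    exact ⟨h.dG_tok hr.rot (fun hh => hka ⟨h1, hh⟩),
      h.dG_tok hr.rot.rot (fun hh => hkb ⟨h1, hh⟩)⟩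
  · by_cases h2 : Apx G M b k a
    · right; left
      exact ⟨h.dG_tok hr h1, h.dG_tok hr.rot.rot (fun hh => hab ⟨h2, hh⟩)⟩
    · left
      exact ⟨h.dG_tok hr h1, h.dG_tok hr.rot h2⟩

end Pool.Agent.Helper95.SEP
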