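import Pool.Agent.Helper95.SEP.World
import Pool.Agent.Helper95.SEP.Main

/-!
# World (2,2,0) is impossible

`World.no_sep3`: in a minimal counterexample of minimum degree three in which every nontrivial set
with three neighbours has density at least two and no root apex, there is no nontrivial set with at
most three neighbours.
-/

set_option autoImplicit false

namespace Pool.Agent.Helper95.SEP

open SimpleGraph Pool.Agent.Helper57.TOK Pool.Agent.Helper57.TD Pool.Agent.Helper57.TOP
  Pool.Agent.Helper82.TK
open Pool.Agent.Helper1.SEP (Links Two iiG false_of_two_sides)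

variable {V : Type*} {G : SimpleGraph V} {U Y : Set V}

theorem World.no_sep3 [Finite V] (h : World G U) (hs : Sep3 G U Y) : False := by
  obtain ⟨M1, M2, s1, s2, m1, m2, h21, h12⟩ := hs.two_sides h
  refine false_of_two_sides (U := U) (M1 := M1) (M2 := M2) h.edge_mem h.gmin.ex.conn h.gmin.bad
    s1.sub s2.sub s1.two s2.two ?_ ?_ (s1.eq3 h) (s2.eq3 h) (s1.links h) (s2.links h)
    (fun a b k hr => m1.two_of_three hr) (fun a b k hr => m2.two_of_three hr) ?_
  · rw [Set.disjoint_left]
    intro x hx1 hx2
    exact (h21 hx2).2 (Or.inl hx1)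
  · rw [Set.disjoint_left]
    intro x hx1 hx2
    exact (h21 hx1).2 (Or.inr hx2)
  · intro a b k x hr hxU hxM hxN
    have hms := m1.mside h hr
    have hx : x ∈ U \ (M1 ∪ {a, b, k}) := by
      refine ⟨hxU, ?_⟩
      rintro (h5 | h5)
      · exact hxM h5
      · exact hxN (hr.eq ▸ h5)
    exact (hms.ties (fun G' U' hex hlt => h.gmin.IH G' U' hex (Or.inl hlt)) hx).1

/-- In the world there is no nontrivial 3-separation. -/
theorem World.cut [Finite V] (h : World G U) : Cut G U := by
  intro Y hY h2 h3
  by_contra hlt
  exact h.no_sep3 (Y := Y) ⟨hY, h2, h3, by omega⟩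

end Pool.Agent.Helper95.SEP
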