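import Pool.Agent.Helper57.TOP.Defs
import Pool.Agent.Helper82.TK.FanTri
import Pool.Agent.Helper1.GL.Cut

/-!
# World (2,2,0), module (A): a minimal nonbalanced three-set and two odd edges

`MinSide G U M`: everything that is used of an inclusion-minimal nonbalanced set `M` with three
neighbours (density at least two, no terminal apex). `dG G M a b k`: the graph on `M` and its three
neighbours with the two additional edges `k a`, `k b`. `fG G M a b m`: with the flexible link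
`a b`, `m a`, `m b` (`m` is a spare vertex). `Apx`: an interior apex of pattern `k`.
-/

set_option autoImplicit false

namespace Pool.Agent.Helper95.SEP

open SimpleGraph Pool.Agent.Helper57.TOK Pool.Agent.Helper57.TD Pool.Agent.Helper57.TOP
  Pool.Agent.Helper82.TK

variable {V : Type*}

/-- `M` with the two odd edges `k a` and `k b`. -/
def dG (G : SimpleGraph V) (M : Set V) (a b k : V) : SimpleGraph V :=
  restr G M ⊔ fromEdgeSet {s(k, a), s(k, b)}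

/-- `M` with the flexible link between `a` and `b`: the edge `a b` and the handle `m`. -/
def fG (G : SimpleGraph V) (M : Set V) (a b m : V) : SimpleGraph V :=
  restr G M ⊔ fromEdgeSet {s(a, b), s(m, a), s(m, b)}

/-- A minimal nonbalanced side. -/
structure MinSide (G : SimpleGraph V) (U M : Set V) : Prop where
  sub : M ⊆ U
  edge_mem : ∀ u v, G.Adj u v → u ∈ U
  three : (Nb G M).ncard = 3
  rest : 2 ≤ (U \ (M ∪ Nb G M)).ncard
  conn : ∀ Y ⊆ M, Y.Nonempty → 3 ≤ (Nb G Y).ncard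
  min : ∀ X ⊆ M, X ≠ M → (Nb G X).ncard ≤ 3 → X.ncard ≤ 1
  f2 : 2 ≤ fden G M
  noapex : ∀ l ∈ Nb G M, ∀ κ : V → ZMod 2,
    ¬ ∀ u v, u ∈ M → v ≠ l → G.Adj u v → κ u ≠ κ v
  IH : ∀ (G' : SimpleGraph V) (U' : Set V), Ex3 G' (One V) U' → U'.ncard < U.ncard →
    HasTOK4s G' (One V)
  link : ∀ a ∈ Nb G M, ∀ b ∈ Nb G M, a ≠ b → ∀ m, m ∉ M → m ∉ Nb G M →
    ¬ HasTOK4s (fG G M a b m) (One V)

/-- The three neighbours of `M`. -/
structure Roots (G : SimpleGraph V) (M : Set V) (a b k : V) : Prop where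
  eq : Nb G M = {a, b, k}
  ab : a ≠ b
  ak : a ≠ k
  bk : b ≠ k

/-- Interior apex of pattern `k`. -/
def Apx (G : SimpleGraph V) (M : Set V) (a b k : V) : Prop :=
  ∃ z ∈ M, ∃ κ : V → ZMod 2, κ a = κ b ∧ κ k ≠ κ a ∧
    ∀ u v, u ∈ M → u ≠ z → v ≠ z → G.Adj u v → κ u ≠ κ v

section basics

variable {G : SimpleGraph V} {U M : Set V} {a b k m : V}

lemma Roots.swap (h : Roots G M a b k) : Roots G M b a k :=
  ⟨by rw [h.eq]; ext x; simp only [Set.mem_insert_iff, Set.mem_singleton_iff]; tauto,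
    h.ab.symm, h.bk, h.ak⟩

lemma Roots.rot (h : Roots G M a b k) : Roots G M b k a :=
  ⟨by rw [h.eq]; ext x; simp only [Set.mem_insert_iff, Set.mem_singleton_iff]; tauto,
    h.bk, h.ab.symm, h.ak.symm⟩

lemma Roots.ma (h : Roots G M a b k) : a ∈ Nb G M := by rw [h.eq]; simp
lemma Roots.mb (h : Roots G M a b k) : b ∈ Nb G M := by rw [h.eq]; simp
lemma Roots.mc (h : Roots G M a b k) : k ∈ Nb G M := by rw [h.eq]; simp
lemma Roots.aM (h : Roots G M a b k) : a ∉ M := h.ma.1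
lemma Roots.bM (h : Roots G M a b k) : b ∉ M := h.mb.1
lemma Roots.kM (h : Roots G M a b k) : k ∉ M := h.mc.1

lemma Roots.cases (h : Roots G M a b k) {x y : V} (hx : x ∈ M) (hxy : G.Adj x y) :
    y ∈ M ∨ y = a ∨ y = b ∨ y = k := by
  by_cases hy : y ∈ M
  · exact Or.inl hy
  · right
    have h1 : y ∈ Nb G M := ⟨hy, x, hx, hxy⟩
    rw [h.eq] at h1
    simpa using h1

lemma dG_adj {x y : V} : (dG G M a b k).Adj x y ↔
    (G.Adj x y ∧ (x ∈ M ∨ y ∈ M)) ∨ (x ≠ y ∧ (s(x, y) = s(k, a) ∨ s(x, y) = s(k, b))) := by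
  unfold dG
  rw [SimpleGraph.sup_adj, restr_adj, SimpleGraph.fromEdgeSet_adj]
  simp only [Set.mem_insert_iff, Set.mem_singleton_iff]
  tauto

lemma fG_adj {x y : V} : (fG G M a b m).Adj x y ↔
    (G.Adj x y ∧ (x ∈ M ∨ y ∈ M)) ∨
      (x ≠ y ∧ (s(x, y) = s(a, b) ∨ s(x, y) = s(m, a) ∨ s(x, y) = s(m, b))) := by
  unfold fG
  rw [SimpleGraph.sup_adj, restr_adj, SimpleGraph.fromEdgeSet_adj]
  simp only [Set.mem_insert_iff, Set.mem_singleton_iff]
  tauto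

/-- Adjacency from a vertex of `M`. -/
lemma dG_adj_M (h : Roots G M a b k) {x y : V} (hx : x ∈ M) :
    (dG G M a b k).Adj x y ↔ G.Adj x y := by
  rw [dG_adj]
  constructor
  · rintro (h1 | ⟨-, h1 | h1⟩)
    · exact h1.1
    · rw [Sym2.eq_iff] at h1
      rcases h1 with ⟨rfl, -⟩ | ⟨rfl, -⟩
      · exact absurd hx h.kM
      · exact absurd hx h.aM
    · rw [Sym2.eq_iff] at h1
      rcases h1 with ⟨rfl, -⟩ | ⟨rfl, -⟩
      · exact absurd hx h.kM
      · exact absurd hx h.bM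
  · exact fun h1 => Or.inl ⟨h1, Or.inl hx⟩

/-- Neighbourhoods of subsets of `M` do not change. -/
lemma Nb_dG (h : Roots G M a b k) {Y : Set V} (hY : Y ⊆ M) :
    Nb (dG G M a b k) Y = Nb G Y :=
  Nb_congr fun _ _ hu _ => dG_adj_M h (hY hu)

lemma dG_ka (h : Roots G M a b k) : (dG G M a b k).Adj k a :=
  dG_adj.2 (Or.inr ⟨h.ak.symm, Or.inl rfl⟩)

lemma dG_kb (h : Roots G M a b k) : (dG G M a b k).Adj k b :=
  dG_adj.2 (Or.inr ⟨h.bk.symm, Or.inr rfl⟩)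

/-- Adjacency from `a`. -/
lemma dG_adj_a (h : Roots G M a b k) {y : V} :
    (dG G M a b k).Adj a y ↔ (G.Adj a y ∧ y ∈ M) ∨ y = k := by
  rw [dG_adj]
  constructor
  · rintro (⟨h1, h2 | h2⟩ | ⟨-, h1 | h1⟩)
    · exact absurd h2 h.aM
    · exact Or.inl ⟨h1, h2⟩
    · rw [Sym2.eq_iff] at h1
      rcases h1 with ⟨h1, -⟩ | ⟨-, h1⟩
      · exact absurd h1 h.ak
      · exact Or.inr h1
    · rw [Sym2.eq_iff] at h1
      rcases h1 with ⟨h1, -⟩ | ⟨h1, -⟩
      · exact absurd h1 h.ak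
      · exact absurd h1 h.ab
  · rintro (⟨h1, h2⟩ | rfl)
    · exact Or.inl ⟨h1, Or.inr h2⟩
    · exact Or.inr ⟨h.ak, Or.inl Sym2.eq_swap⟩

lemma dG_comm : dG G M a b k = dG G M b a k := by
  ext x y
  rw [dG_adj, dG_adj]
  tauto

/-- Adjacency from `b`. -/
lemma dG_adj_b (h : Roots G M a b k) {y : V} :
    (dG G M a b k).Adj b y ↔ (G.Adj b y ∧ y ∈ M) ∨ y = k := by
  rw [dG_comm]
  exact dG_adj_a h.swap

/-- Adjacency from `k`. -/
lemma dG_adj_k (h : Roots G M a b k) {y : V} :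
    (dG G M a b k).Adj k y ↔ (G.Adj k y ∧ y ∈ M) ∨ y = a ∨ y = b := by
  rw [dG_adj]
  constructor
  · rintro (⟨h1, h2 | h2⟩ | ⟨-, h1 | h1⟩)
    · exact absurd h2 h.kM
    · exact Or.inl ⟨h1, h2⟩
    · rw [Sym2.eq_iff] at h1
      rcases h1 with ⟨-, h1⟩ | ⟨h1, -⟩
      · exact Or.inr (Or.inl h1)
      · exact absurd h1.symm h.ak
    · rw [Sym2.eq_iff] at h1
      rcases h1 with ⟨-, h1⟩ | ⟨h1, -⟩
      · exact Or.inr (Or.inr h1)
      · exact absurd h1.symm h.bk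
  · rintro (⟨h1, h2⟩ | rfl | rfl)
    · exact Or.inl ⟨h1, Or.inr h2⟩
    · exact Or.inr ⟨h.ak.symm, Or.inl rfl⟩
    · exact Or.inr ⟨h.bk.symm, Or.inr rfl⟩

/-- Edges of `dG` stay in `M ∪ {a, b, k}`. -/
lemma dG_mem (h : Roots G M a b k) {x y : V} (hxy : (dG G M a b k).Adj x y) :
    x ∈ M ∪ {a, b, k} := by
  rcases dG_adj.1 hxy with ⟨h1, h2 | h2⟩ | ⟨-, h1 | h1⟩
  · exact Or.inl h2
  · by_cases hx : x ∈ M
    · exact Or.inl hx
    · right; rw [← h.eq]; exact ⟨hx, y, h2, h1.symm⟩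
  · rw [Sym2.eq_iff] at h1
    rcases h1 with ⟨rfl, -⟩ | ⟨rfl, -⟩ <;> right <;> simp
  · rw [Sym2.eq_iff] at h1
    rcases h1 with ⟨rfl, -⟩ | ⟨rfl, -⟩ <;> right <;> simp

end basics

end Pool.Agent.Helper95.SEP
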