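import Pool.Agent.Helper95.SEP.Two

/-!
# At most one pattern of interior apexes

PROOF (2b). `z1, κ1` of pattern `k` (`κ1 a = κ1 b ≠ κ1 k`), `z2, κ2` of pattern `a`
(`κ2 k = κ2 b ≠ κ2 a`). `δ = κ1 + κ2` is constant along the edges `u v`, `u ∈ M`,
`u, v ∉ {z1, z2}`; `δ a = δ k ≠ δ b`. Let `C = {x ∈ M | x ≠ z1, x ≠ z2, δ x = δ b}`.
* No vertex of `C` is adjacent to `a` or `k` (`δ`), so `Nb G C ⊆ {b, z1, z2}`; `C ≠ M`, so
  `|C| ≤ 1` (`min`).
* neighbours of `b` in `M`: in `C ∪ {z1, z2}`.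
* `z1 = z2`: then `Nb G C ⊆ {b, z1}`, so `C = ∅` (`conn`) and `b` has only the neighbour `z1`:
  contradiction to `two_nbrs`.
* `z1 ≠ z2`, `C = ∅`: `b ~ z1, z2` (two_nbrs). Define `κ x = κ1 x` if `x ≠ z1`, `κ z1 = κ2 z1 + δ a`.
  All edges meeting `M` which avoid `b` are proper: an edge avoiding `z1`: `κ1`; an edge `z1 v`,
  `v ≠ b, z2`: `κ2` proper, and `κ1 v = κ2 v + δ a` since `δ v = δ a` (`C = ∅`; for the roots
  `a, k` directly); the edge `z1 z2`: `b ~ z1` gives `κ2 z1 ≠ κ2 b`, `b ~ z2` gives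
  `κ1 z2 ≠ κ1 b`, `δ b ≠ δ a`: so `κ z1 ≠ κ z2`. Contradiction to `noapex b`.
* `z1 ≠ z2`, `C = {x}`: by `conn` `Nb G {x} = {b, z1, z2}`; `x ~ z1` gives `κ2 x ≠ κ2 z1`,
  `x ~ b` gives `κ2 x ≠ κ2 b`, so `κ2 z1 = κ2 b` and `b` is not adjacent to `z1`
  (`κ2` is proper on `z1 b`: `z1 ∈ M`, `z1 ≠ z2`); in the same way `b` is not adjacent to `z2`.
  So `x` is the only neighbour of `b` in `M`: contradiction to `two_nbrs`.
-/

set_option autoImplicit false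

namespace Pool.Agent.Helper95.SEP

open SimpleGraph Pool.Agent.Helper57.TOK Pool.Agent.Helper57.TD Pool.Agent.Helper57.TOP
  Pool.Agent.Helper82.TK

variable {V : Type*} {G : SimpleGraph V} {U M : Set V} {a b k : V}

private lemma z2_dk : ∀ a1 b1 k1 a2 b2 k2 : ZMod 2, a1 = b1 → k1 ≠ a1 → k2 = b2 → a2 ≠ k2 →
    k1 + k2 = a1 + a2 ∧ b1 + b2 ≠ a1 + a2 := by decide

private lemma z2_sum : ∀ x1 y1 x2 y2 : ZMod 2, x1 ≠ y1 → x2 ≠ y2 → x1 + x2 = y1 + y2 := by decide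

private lemma z2_eq : ∀ x y z : ZMod 2, x ≠ z → y ≠ z → x = y := by decide

private lemma z2_mid : ∀ z1 z2 b1 b2 d : ZMod 2, z2 ≠ b2 → z1 ≠ b1 → b1 + b2 ≠ d →
    z2 + d ≠ z1 := by decide

private lemma z2_far : ∀ v1 v2 z2 d : ZMod 2, z2 ≠ v2 → v1 + v2 = d → z2 + d ≠ v1 := by decide

/-- (2b) -/
theorem MinSide.one_apex [Finite V] (h : MinSide G U M) (hr : Roots G M a b k)
    (h1 : Apx G M a b k) (h2 : Apx G M k b a) : False := by
  classical
  obtain ⟨z1, hz1, κ1, e1, f1, g1⟩ := h1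
  obtain ⟨z2, hz2, κ2, e2, f2, g2⟩ := h2
  obtain ⟨hdk, hdb⟩ := z2_dk _ _ _ _ _ _ e1 f1 e2 f2
  have hbz1 : b ≠ z1 := fun hh => hr.bM (hh ▸ hz1)
  have hbz2 : b ≠ z2 := fun hh => hr.bM (hh ▸ hz2)
  have hδ : ∀ u v, u ∈ M → u ≠ z1 → u ≠ z2 → v ≠ z1 → v ≠ z2 → G.Adj u v →
      κ1 u + κ2 u = κ1 v + κ2 v := fun u v hu a1 a2 a3 a4 huv =>
    z2_sum _ _ _ _ (g1 u v hu a1 a3 huv) (g2 u v hu a2 a4 huv)
  obtain ⟨C, hC⟩ : ∃ C : Set V, C = {x | x ∈ M ∧ x ≠ z1 ∧ x ≠ z2 ∧ κ1 x + κ2 x = κ1 b + κ2 b} :=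
    ⟨_, rfl⟩
  have hCm : ∀ x, x ∈ C ↔ x ∈ M ∧ x ≠ z1 ∧ x ≠ z2 ∧ κ1 x + κ2 x = κ1 b + κ2 b := by
    intro x; rw [hC]; rfl
  have hCM : C ⊆ M := fun x hx => ((hCm x).1 hx).1
  have hCne : C ≠ M := by
    intro hh
    have h3 : z1 ∈ C := by rw [hh]; exact hz1
    exact ((hCm z1).1 h3).2.1 rfl
  have hadjC : ∀ x ∈ C, ∀ y, G.Adj x y → y ∈ C ∨ y = b ∨ y = z1 ∨ y = z2 := by
    intro x hx y hxy
    obtain ⟨c1, c2, c3, c4⟩ := (hCm x).1 hx
    by_cases hy1 : y = z1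
    · exact Or.inr (Or.inr (Or.inl hy1))
    by_cases hy2 : y = z2
    · exact Or.inr (Or.inr (Or.inr hy2))
    have h3 := hδ x y c1 c2 c3 hy1 hy2 hxy
    rcases hr.cases c1 hxy with h4 | h4 | h4 | h4
    · exact Or.inl ((hCm y).2 ⟨h4, hy1, hy2, by rw [← h3, c4]⟩)
    · exfalso
      rw [h4] at h3
      exact hdb (by rw [← c4, h3])
    · exact Or.inr (Or.inl h4)
    · exfalso
      rw [h4] at h3
      exact hdb (by rw [← c4, h3, hdk])
  have hNC : Nb G C ⊆ {b, z1, z2} := by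
    rintro y ⟨hy, x, hx, hxy⟩
    rcases hadjC x hx y hxy with h3 | h3 | h3 | h3
    · exact absurd h3 hy
    · exact Or.inl h3
    · exact Or.inr (Or.inl h3)
    · exact Or.inr (Or.inr h3)
  have hle3 : ({b, z1, z2} : Set V).ncard ≤ 3 := by
    have h3 := Set.ncard_insert_le b ({z1, z2} : Set V)
    have h4 := Set.ncard_insert_le z1 ({z2} : Set V)
    rw [Set.ncard_singleton] at h4
    omega
  have hC1 := h.min C hCM hCne ((Set.ncard_le_ncard hNC (Set.toFinite _)).trans hle3)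
  have hbn : ∀ x ∈ M, G.Adj b x → x ∈ C ∨ x = z1 ∨ x = z2 := by
    intro x hx hbx
    by_cases hx1 : x = z1
    · exact Or.inr (Or.inl hx1)
    by_cases hx2 : x = z2
    · exact Or.inr (Or.inr hx2)
    exact Or.inl ((hCm x).2 ⟨hx, hx1, hx2, hδ x b hx hx1 hx2 hbz1 hbz2 hbx.symm⟩)
  by_cases hz : z1 = z2
  · -- one apex only
    have hCe : C = ∅ := by
      by_contra hne
      have h3 := h.conn C hCM (Set.nonempty_iff_ne_empty.2 hne)
      have h4 : Nb G C ⊆ {b, z1} := by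
        intro y hy
        rcases hNC hy with h5 | h5 | h5
        · exact Or.inl h5
        · exact Or.inr h5
        · rw [Set.mem_singleton_iff, ← hz] at h5
          exact Or.inr h5
      have h5 := Set.ncard_le_ncard h4 (Set.toFinite _)
      have h6 := Set.ncard_insert_le b ({z1} : Set V)
      rw [Set.ncard_singleton] at h6
      omega
    obtain ⟨x, hx, hxz, hbx⟩ := h.exists_two hr.mb z1
    rcases hbn x hx hbx with h3 | h3 | h3
    · rw [hCe] at h3; exact h3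
    · exact hxz h3
    · exact hxz (h3.trans hz.symm)
  by_cases hCe : C = ∅
  · have hbz2' : G.Adj b z2 := by
      obtain ⟨x, hx, hxz, hbx⟩ := h.exists_two hr.mb z1
      rcases hbn x hx hbx with h3 | h3 | h3
      · rw [hCe] at h3; exact absurd h3 (Set.notMem_empty _)
      · exact absurd h3 hxz
      · rwa [h3] at hbx
    have hbz1' : G.Adj b z1 := by
      obtain ⟨x, hx, hxz, hbx⟩ := h.exists_two hr.mb z2
      rcases hbn x hx hbx with h3 | h3 | h3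
      · rw [hCe] at h3; exact absurd h3 (Set.notMem_empty _)
      · rwa [h3] at hbx
      · exact absurd h3 hxz
    have p1 : κ2 z1 ≠ κ2 b := g2 z1 b hz1 hz hbz2 hbz1'.symm
    have p2 : κ1 z2 ≠ κ1 b := g1 z2 b hz2 (Ne.symm hz) hbz1 hbz2'.symm
    have hda : ∀ v, v ∈ M → v ≠ z1 → v ≠ z2 → κ1 v + κ2 v = κ1 a + κ2 a := by
      intro v hv hv1 hv2
      refine z2_eq _ _ (κ1 b + κ2 b) ?_ (Ne.symm hdb)
      intro h3
      have h4 : v ∈ C := (hCm v).2 ⟨hv, hv1, hv2, h3⟩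
      rw [hCe] at h4
      exact h4
    -- the edges at `z1`
    have hzv : ∀ v, v ≠ b → G.Adj z1 v → κ2 z1 + (κ1 a + κ2 a) ≠ κ1 v := by
      intro v hvb hzv
      by_cases hv2 : v = z2
      · rw [hv2]
        exact z2_mid _ _ _ _ _ p1 p2 hdb
      · have h3 : κ2 z1 ≠ κ2 v := g2 z1 v hz1 hz hv2 hzv
        refine z2_far _ _ _ _ h3 ?_
        rcases hr.cases hz1 hzv with h4 | h4 | h4 | h4
        · exact hda v h4 hzv.ne.symm hv2
        · rw [h4]
        · exact absurd h4 hvb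
        · rw [h4, hdk]
    apply h.noapex b hr.mb (fun x => if x = z1 then κ2 z1 + (κ1 a + κ2 a) else κ1 x)
    intro u v hu hvb huv
    by_cases hu1 : u = z1
    · rw [hu1] at huv
      rw [if_pos hu1, if_neg huv.ne.symm]
      exact hzv v hvb huv
    · by_cases hv1 : v = z1
      · rw [hv1] at huv
        rw [if_neg hu1, if_pos hv1]
        exact (hzv u (fun hh => hr.bM (hh ▸ hu)) huv.symm).symm
      · rw [if_neg hu1, if_neg hv1]
        exact g1 u v hu hu1 hv1 huv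
  · obtain ⟨x, hx⟩ := Set.nonempty_iff_ne_empty.2 hCe
    have hxu : ∀ y ∈ C, y = x := by
      intro y hy
      by_contra hne
      have h3 : ({y, x} : Set V) ⊆ C := by
        rintro z (rfl | hz')
        · exact hy
        · rw [Set.mem_singleton_iff] at hz'; rw [hz']; exact hx
      have h4 := Set.ncard_le_ncard h3 (Set.toFinite _)
      rw [Set.ncard_pair hne] at h4
      omega
    obtain ⟨c1, c2, c3, c4⟩ := (hCm x).1 hx
    have h3 := h.conn C hCM ⟨x, hx⟩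
    have hNeq : Nb G C = {b, z1, z2} :=
      Set.eq_of_subset_of_ncard_le hNC (by omega) (Set.toFinite _)
    have hadj : ∀ y ∈ ({b, z1, z2} : Set V), G.Adj x y := by
      intro y hy
      rw [← hNeq] at hy
      obtain ⟨-, w, hw, hwy⟩ := hy
      rwa [hxu w hw] at hwy
    have q1 : G.Adj x b := hadj b (by simp)
    have q2 : G.Adj x z1 := hadj z1 (by simp)
    have q3 : G.Adj x z2 := hadj z2 (by simp)
    have n1 : ¬ G.Adj b z1 := by
      intro hh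
      exact g2 z1 b hz1 hz hbz2 hh.symm (z2_eq _ _ (κ2 x)
        (g2 x z1 c1 c3 hz q2).symm (g2 x b c1 c3 hbz2 q1).symm)
    have n2 : ¬ G.Adj b z2 := by
      intro hh
      exact g1 z2 b hz2 (Ne.symm hz) hbz1 hh.symm (z2_eq _ _ (κ1 x)
        (g1 x z2 c1 c2 (Ne.symm hz) q3).symm (g1 x b c1 c2 hbz1 q1).symm)
    obtain ⟨y, hy, hyx, hby⟩ := h.exists_two hr.mb x
    rcases hbn y hy hby with h4 | h4 | h4
    · exact hyx (hxu y h4)
    · rw [h4] at hby; exact n1 hby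
    · rw [h4] at hby; exact n2 hby

end Pool.Agent.Helper95.SEP
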