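import Pool.Agent.Helper95.SEP.Two

/-!
# Connectivity of `dG`

Let `G' = dG G M a b k`, `U' = M ∪ {a, b, k}`.
`dG_deg3`: every vertex of `U'` has at least three neighbours in `G'` (`conn` for `{y}`, `y ∈ M`;
`two_nbrs` plus the new edge for the roots).
`dG_conn`: a nonempty `Y ⊆ U'` with at most two neighbours has empty rest.
PROOF. Let `A = Y`, `C = Nb G' Y`, `B = U' \ (A ∪ C)` nonempty; no edges between `A` and `B`.
* `k ∈ A`: `a, b ∈ A ∪ C`, so `B ⊆ M`, `Nb G B = Nb G' B ⊆ C`: contradiction to `conn`.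
  `k ∈ B`: the same with `A`. So `k ∈ C`.
* `A ∩ {a, b} = ∅` or `B ∩ {a, b} = ∅`: then `A ⊆ M` (`B ⊆ M`): contradiction to `conn`.
* So `a ∈ A`, `b ∈ B` (or conversely: use `dG_comm`), `C ⊆ {k, s}`. `|A| ≥ 2` and `|B| ≥ 2` by
  `dG_deg3` (a vertex `A = {a}` would have at most two neighbours). `A' = A \ {a} ⊆ M` nonempty,
  `Nb G A' ⊆ {a} ∪ C`, `A' ≠ M`: `A' = {y}` (`min`), and `Nb G {y} = {a, k, s}` (`conn`);
  `B \ {b} = {z}`, `Nb G {z} = {b, k, s}`, `s ∈ M`. The neighbours of `a` in `M` are in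
  `{y, s}`: `a ~ y, s` (two_nbrs); `b ~ z, s`.
  In `fG G M a b m` (`m` from `exists_m`): triangle `s, a, y`; fan from `b`: `b s`, `b a`,
  `b z, z k, k y`: `hasTOK4s_of_fan_triangle`. Contradiction to `link`.
-/

set_option autoImplicit false
set_option synthInstance.maxSize 2000

namespace Pool.Agent.Helper95.SEP

open SimpleGraph Pool.Agent.Helper57.TOK Pool.Agent.Helper57.TD Pool.Agent.Helper57.TOP
  Pool.Agent.Helper82.TK

variable {V : Type*} {G : SimpleGraph V} {U M : Set V} {a b k : V}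

/-- `K4` with one edge replaced by a path of length three. -/
def CN6 : SimpleGraph (Fin 6) :=
  ofList [(0, 1), (0, 2), (1, 2), (0, 3), (1, 3), (3, 4), (4, 5), (2, 5)]

instance : DecidableRel CN6.Adj := inferInstanceAs (DecidableRel (ofList _).Adj)

lemma tok_CN6 : HasTOK4s CN6 (fun _ => 1) :=
  HasTOK4s.of_lists ![0, 1, 2, 3]
    (sixLists [0, 1] [0, 2] [0, 3] [1, 2] [1, 3] [2, 5, 4, 3])
    (by decide) (by decide) (by decide)

/-- Triangle `s a y`, `b` adjacent to `s` and `a`, and the path `b z k y`. -/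
lemma hasTOK4s_cn {H : SimpleGraph V} {s a y b z k : V} (e1 : H.Adj s a) (e2 : H.Adj s y)
    (e3 : H.Adj a y) (e4 : H.Adj s b) (e5 : H.Adj a b) (e6 : H.Adj b z) (e7 : H.Adj z k)
    (e8 : H.Adj y k) (n1 : y ≠ b) (n2 : s ≠ z) (n3 : s ≠ k) (n4 : a ≠ z) (n5 : a ≠ k)
    (n6 : y ≠ z) (n7 : b ≠ k) : HasTOK4s H (One V) := by
  have hφ : Function.Injective ![s, a, y, b, z, k] := by
    intro x y hxy
    by_contra hne
    fin_cases x <;> fin_cases y <;>
      first
        | exact hne rfl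
        | exact e1.ne hxy
        | exact e1.ne hxy.symm
        | exact e2.ne hxy
        | exact e2.ne hxy.symm
        | exact e3.ne hxy
        | exact e3.ne hxy.symm
        | exact e4.ne hxy
        | exact e4.ne hxy.symm
        | exact e5.ne hxy
        | exact e5.ne hxy.symm
        | exact e6.ne hxy
        | exact e6.ne hxy.symm
        | exact e7.ne hxy
        | exact e7.ne hxy.symm
        | exact e8.ne hxy
        | exact e8.ne hxy.symm
        | exact n1 hxy
        | exact n1 hxy.symm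
        | exact n2 hxy
        | exact n2 hxy.symm
        | exact n3 hxy
        | exact n3 hxy.symm
        | exact n4 hxy
        | exact n4 hxy.symm
        | exact n5 hxy
        | exact n5 hxy.symm
        | exact n6 hxy
        | exact n6 hxy.symm
        | exact n7 hxy
        | exact n7 hxy.symm
  refine HasTOK4s.of_injective (cG := One V) ![s, a, y, b, z, k] (fun x _ y _ h => hφ h) ?_ tok_CN6
  intro u w huw
  refine ⟨?_, rfl⟩
  fin_cases u <;> fin_cases w <;>
    first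
      | exact absurd huw (by decide)
      | exact e1
      | exact e1.symm
      | exact e2
      | exact e2.symm
      | exact e3
      | exact e3.symm
      | exact e4
      | exact e4.symm
      | exact e5
      | exact e5.symm
      | exact e6
      | exact e6.symm
      | exact e7
      | exact e7.symm
      | exact e8
      | exact e8.symm

theorem MinSide.dG_deg3 [Finite V] (h : MinSide G U M) (hr : Roots G M a b k) {y : V}
    (hy : y ∈ M ∪ {a, b, k}) : 3 ≤ ((dG G M a b k).neighborSet y).ncard := by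
  have key : ∀ {a b : V}, Roots G M a b k → 3 ≤ ((dG G M a b k).neighborSet a).ncard := by
    intro a b hr
    have h1 := h.two_nbrs hr.ma
    have h2 : insert k (G.neighborSet a ∩ M) ⊆ (dG G M a b k).neighborSet a := by
      intro y hy
      rw [SimpleGraph.mem_neighborSet, dG_adj_a hr]
      rcases hy with rfl | hy
      · exact Or.inr rfl
      · exact Or.inl hy
    have h3 := Set.ncard_le_ncard h2 (Set.toFinite _)
    rw [Set.ncard_insert_of_notMem (fun hh => hr.kM hh.2) (Set.toFinite _)] at h3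
    omega
  rcases hy with hy | hy
  · have h1 := h.conn {y} (Set.singleton_subset_iff.2 hy) (Set.singleton_nonempty y)
    rw [← Nb_dG hr (Set.singleton_subset_iff.2 hy), Nb_singleton] at h1
    exact h1
  · rcases hy with rfl | rfl | hy
    · exact key hr
    · rw [dG_comm]; exact key hr.swap
    · rw [Set.mem_singleton_iff] at hy
      subst hy
      have h1 := h.two_nbrs hr.mc
      have h2 : insert a (G.neighborSet y ∩ M) ⊆ (dG G M a b y).neighborSet y := by
        intro x hx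
        rw [SimpleGraph.mem_neighborSet, dG_adj_k hr]
        rcases hx with rfl | hx
        · exact Or.inr (Or.inl rfl)
        · exact Or.inl hx
      have h3 := Set.ncard_le_ncard h2 (Set.toFinite _)
      rw [Set.ncard_insert_of_notMem (fun hh => hr.aM hh.2) (Set.toFinite _)] at h3
      omega

/-- One side of the separation: the set is the root and one vertex of `M`. -/
lemma MinSide.cn_side [Finite V] (h : MinSide G U M) (hr : Roots G M a b k) {A B C : Set V}
    (hA : A ⊆ M ∪ {a, b, k}) (hNA : Nb (dG G M a b k) A ⊆ C) (hC : C.ncard ≤ 2)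
    (haA : a ∈ A) (hbB : b ∈ B) (hkC : k ∈ C) (hAB : Disjoint A B) (hAC : Disjoint A C)
    (hBC : Disjoint B C) :
    ∃ y s, y ∈ M ∧ s ∈ M ∧ y ∈ A ∧ C = {k, s} ∧ s ≠ k ∧ G.Adj y a ∧ G.Adj y k ∧ G.Adj y s ∧
      G.Adj a s := by
  have hAM : A \ {a} ⊆ M := by
    rintro x ⟨hx, hxa⟩
    rcases hA hx with h1 | h1 | h1 | h1
    · exact h1
    · exact absurd h1 hxa
    · exact absurd (h1 ▸ hbB) (Set.disjoint_left.1 hAB hx)
    · rw [Set.mem_singleton_iff] at h1
      exact absurd (h1 ▸ hkC) (Set.disjoint_left.1 hAC hx)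
  have hne : (A \ {a}).Nonempty := by
    by_contra hcon
    rw [Set.not_nonempty_iff_eq_empty, Set.sdiff_eq_empty] at hcon
    have h1 : A = {a} := Set.Subset.antisymm hcon (Set.singleton_subset_iff.2 haA)
    have h2 := h.dG_deg3 hr (Or.inr (Or.inl rfl) : a ∈ M ∪ {a, b, k})
    rw [← Nb_singleton, ← h1] at h2
    have h3 := Set.ncard_le_ncard hNA (Set.toFinite _)
    omega
  have hN : Nb G (A \ {a}) ⊆ insert a C := by
    rw [← Nb_dG hr hAM]
    rintro v ⟨hv, u, hu, huv⟩
    by_cases hva : v = a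
    · exact Or.inl hva
    · right
      apply hNA
      exact ⟨fun h1 => hv ⟨h1, hva⟩, u, hu.1, huv⟩
  have haC : a ∉ C := Set.disjoint_left.1 hAC haA
  have hbC : b ∉ C := Set.disjoint_left.1 hBC hbB
  have hcN : (insert a C).ncard ≤ 3 := by
    rw [Set.ncard_insert_of_notMem haC (Set.toFinite _)]; omega
  have hle := Set.ncard_le_ncard hN (Set.toFinite _)
  have hneM : A \ {a} ≠ M := by
    intro hh
    obtain ⟨x, hxM, -, hbx⟩ := h.exists_two hr.mb b
    have h1 : (dG G M a b k).Adj x b := ((dG_adj_b hr).2 (Or.inl ⟨hbx, hxM⟩)).symm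
    have hxA : x ∈ A := by rw [← hh] at hxM; exact hxM.1
    have h2 : b ∈ C := hNA ⟨fun h3 => Set.disjoint_left.1 hAB h3 hbB, x, hxA, h1⟩
    exact hbC h2
  have hc1 := h.min _ hAM hneM (by omega)
  obtain ⟨y, hy⟩ := hne
  have hAy : A \ {a} = {y} := by
    rw [Set.ncard_le_one (Set.toFinite _)] at hc1
    ext x
    rw [Set.mem_singleton_iff]
    exact ⟨fun hx => hc1 x hx y hy, fun hx => hx ▸ hy⟩
  rw [hAy] at hN hle
  have h3 := h.conn {y} (by rw [← hAy]; exact hAM) (Set.singleton_nonempty y)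
  have heq : Nb G {y} = insert a C :=
    Set.eq_of_subset_of_ncard_le hN (by omega) (Set.toFinite _)
  have hC2 : C.ncard = 2 := by
    have := Set.ncard_insert_of_notMem haC (Set.toFinite _)
    rw [heq] at h3
    omega
  have hadj : ∀ x ∈ insert a C, G.Adj y x := by
    intro x hx
    rw [← heq, Nb_singleton] at hx
    exact hx
  obtain ⟨s, hs⟩ : ∃ s, C = {k, s} ∧ s ≠ k := by
    have h5 : (C \ {k}).ncard = 1 := by
      rw [Set.ncard_sdiff_singleton_of_mem hkC, hC2]
    obtain ⟨s, hs⟩ := Set.ncard_eq_one.1 h5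
    have h6 : s ∈ C \ {k} := by rw [hs]; rfl
    refine ⟨s, ?_, h6.2⟩
    rw [← hs, Set.insert_sdiff_singleton, Set.insert_eq_of_mem hkC]
  have hsC : s ∈ C := by rw [hs.1]; exact Or.inr rfl
  have hyM : y ∈ M := hAM hy
  have hys : G.Adj y s := hadj s (Or.inr hsC)
  have hsM : s ∈ M := by
    rcases hr.cases hyM hys with h1 | h1 | h1 | h1
    · exact h1
    · exact absurd (h1 ▸ hsC) haC
    · exact absurd (h1 ▸ hsC) hbC
    · exact absurd h1 hs.2
  refine ⟨y, s, hyM, hsM, hy.1, hs.1, hs.2, hadj a (Or.inl rfl), hadj k (Or.inr hkC), hys, ?_⟩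
  obtain ⟨x, hxM, hxy, hax⟩ := h.exists_two hr.ma y
  have h1 : (dG G M a b k).Adj a x := (dG_adj_a hr).2 (Or.inl ⟨hax, hxM⟩)
  by_cases hxA : x ∈ A
  · exfalso
    have h2 : x ∈ A \ {a} := ⟨hxA, fun hh => hr.aM (hh ▸ hxM)⟩
    rw [hAy] at h2
    exact hxy h2
  · have h2 : x ∈ C := hNA ⟨hxA, a, haA, h1⟩
    rw [hs.1] at h2
    rcases h2 with h2 | h2
    · exact absurd (h2 ▸ hxM) hr.kM
    · rw [Set.mem_singleton_iff] at h2
      rw [← h2]
      exact hax

/-- The roots `a` and `b` cannot be separated by two vertices. -/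
lemma MinSide.cn_false [Finite V] (h : MinSide G U M) (hr : Roots G M a b k) {A B C : Set V}
    (hA : A ⊆ M ∪ {a, b, k}) (hB : B ⊆ M ∪ {a, b, k}) (hNA : Nb (dG G M a b k) A ⊆ C)
    (hNB : Nb (dG G M a b k) B ⊆ C) (hC : C.ncard ≤ 2)
    (haA : a ∈ A) (hbB : b ∈ B) (hkC : k ∈ C) (hAB : Disjoint A B) (hAC : Disjoint A C)
    (hBC : Disjoint B C) : False := by
  obtain ⟨y, s, hyM, hsM, hyA, hCs, hsk, y1, y2, y3, y4⟩ :=
    h.cn_side hr hA hNA hC haA hbB hkC hAB hAC hBC
  have hswap : ({b, a, k} : Set V) = {a, b, k} := by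
    ext x; simp only [Set.mem_insert_iff, Set.mem_singleton_iff]; tauto
  obtain ⟨z, s', hzM, hs'M, hzB, hCs', hsk', z1, z2, z3, z4⟩ :=
    h.cn_side hr.swap (A := B) (B := A) (C := C) (by rw [hswap]; exact hB)
      (by rw [dG_comm]; exact hNB) hC hbB haA hkC hAB.symm hBC hAC
  have hss : s' = s := by
    have h1 : s' ∈ C := by rw [hCs']; exact Or.inr rfl
    rw [hCs] at h1
    rcases h1 with h1 | h1
    · exact absurd h1 hsk'
    · exact h1
  subst hss
  have hsC : s' ∈ C := by rw [hCs]; exact Or.inr rfl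
  obtain ⟨m, -, hmM, hmN⟩ := h.exists_m
  refine h.link a hr.ma b hr.mb hr.ab m hmM hmN ?_
  have hf : ∀ {x y : V}, x ∈ M → G.Adj x y → (fG G M a b m).Adj x y := fun hx hxy =>
    fG_adj.2 (Or.inl ⟨hxy, Or.inl hx⟩)
  refine hasTOK4s_cn (s := s') (a := a) (y := y) (b := b) (z := z) (k := k)
    (hf hsM y4.symm) (hf hsM y3.symm) (hf hyM y1).symm (hf hsM z4.symm)
    (fG_adj.2 (Or.inr ⟨hr.ab, Or.inl rfl⟩)) (hf hzM z1).symm (hf hzM z2) (hf hyM y2)
    ?_ ?_ hsk ?_ hr.ak ?_ hr.bk
  · exact fun hh => hr.bM (hh ▸ hyM)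
  · exact fun hh => Set.disjoint_left.1 hBC hzB (hh ▸ hsC)
  · exact fun hh => hr.aM (hh ▸ hzM)
  · exact fun hh => Set.disjoint_left.1 hAB hyA (hh ▸ hzB)

theorem MinSide.dG_conn [Finite V] (h : MinSide G U M) (hr : Roots G M a b k) {Y : Set V}
    (hY : Y ⊆ M ∪ {a, b, k}) (hne : Y.Nonempty) (h2 : (Nb (dG G M a b k) Y).ncard ≤ 2) :
    M ∪ {a, b, k} ⊆ Y ∪ Nb (dG G M a b k) Y := by
  by_contra hcon
  obtain ⟨w, hwU, hw⟩ := Set.not_subset.1 hcon
  set C := Nb (dG G M a b k) Y with hCdef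
  set B := (M ∪ {a, b, k}) \ (Y ∪ C) with hBdef
  have hwB : w ∈ B := ⟨hwU, hw⟩
  have hBU : B ⊆ M ∪ {a, b, k} := Set.sdiff_subset
  have hYB : Disjoint Y B := by
    rw [Set.disjoint_left]
    exact fun x hx hxB => hxB.2 (Or.inl hx)
  have hBC : Disjoint B C := by
    rw [Set.disjoint_left]
    exact fun x hx hxC => hx.2 (Or.inr hxC)
  have hYC : Disjoint Y C := by
    rw [Set.disjoint_left]
    exact fun x hx hxC => hxC.1 hx
  have hNB : Nb (dG G M a b k) B ⊆ C := by
    rintro v ⟨hv, u, hu, huv⟩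
    by_contra hvC
    have hvU := dG_mem hr huv.symm
    by_cases hvY : v ∈ Y
    · exact hu.2 (Or.inr ⟨fun h1 => hu.2 (Or.inl h1), v, hvY, huv.symm⟩)
    · exact hv ⟨hvU, fun hh => hh.elim hvY hvC⟩
  have hcov : ∀ x, x ∈ M ∪ {a, b, k} → x ∈ Y ∨ x ∈ B ∨ x ∈ C := by
    intro x hx
    by_cases h3 : x ∈ Y
    · exact Or.inl h3
    · by_cases h4 : x ∈ C
      · exact Or.inr (Or.inr h4)
      · exact Or.inr (Or.inl ⟨hx, fun hh => hh.elim h3 h4⟩)
  -- neither side is in `M`
  have hnM : ∀ A : Set V, A.Nonempty → Nb (dG G M a b k) A ⊆ C → ¬ A ⊆ M := by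
    intro A hA hNA hAM
    have h3 := h.conn A hAM hA
    rw [← Nb_dG hr hAM] at h3
    have h4 := Set.ncard_le_ncard hNA (Set.toFinite _)
    omega
  have hYM := hnM Y hne (le_of_eq rfl)
  have hBM := hnM B ⟨w, hwB⟩ hNB
  -- the neighbours of a set are in the set or in `C`
  have hcl : ∀ A : Set V, Nb (dG G M a b k) A ⊆ C → ∀ x ∈ A, ∀ y, (dG G M a b k).Adj x y →
      y ∈ A ∨ y ∈ C := by
    intro A hNA x hx y hxy
    by_cases hy : y ∈ A
    · exact Or.inl hy
    · exact Or.inr (hNA ⟨hy, x, hx, hxy⟩)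
  have hkC : k ∈ C := by
    have main : ∀ A B : Set V, Nb (dG G M a b k) A ⊆ C → B ⊆ M ∪ {a, b, k} → Disjoint A B →
        Disjoint B C → ¬ B ⊆ M → k ∉ A := by
      intro A B hNA hB hAB hBC hBM hkA
      apply hBM
      intro x hx
      have hno : ∀ y, y ∈ A ∨ y ∈ C → x ≠ y := by
        rintro y (hy | hy) rfl
        · exact Set.disjoint_left.1 hAB hy hx
        · exact Set.disjoint_left.1 hBC hx hy
      rcases hB hx with h1 | h1 | h1 | h1
      · exact h1
      · exact absurd h1 (hno _ (hcl A hNA k hkA a (dG_ka hr)))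
      · exact absurd h1 (hno _ (hcl A hNA k hkA b (dG_kb hr)))
      · exact absurd h1 (hno _ (Or.inl hkA))
    rcases hcov k (Or.inr (Or.inr (Or.inr rfl))) with h1 | h1 | h1
    · exact absurd h1 (main Y B (le_of_eq rfl) hBU hYB hBC hBM)
    · exact absurd h1 (main B Y hNB hY hYB.symm hYC hYM)
    · exact h1
  have hroot : ∀ A : Set V, A ⊆ M ∪ {a, b, k} → Disjoint A C → ¬ A ⊆ M → a ∈ A ∨ b ∈ A := by
    intro A hA hAC hAM
    obtain ⟨x, hx, hxM⟩ := Set.not_subset.1 hAM
    rcases hA hx with h1 | h1 | h1 | h1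
    · exact absurd h1 hxM
    · exact Or.inl (h1 ▸ hx)
    · exact Or.inr (h1 ▸ hx)
    · rw [Set.mem_singleton_iff] at h1
      exact absurd (h1 ▸ hkC) (Set.disjoint_left.1 hAC hx)
  rcases hroot Y hY hYC hYM with h3 | h3
  · rcases hroot B hBU hBC hBM with h4 | h4
    · exact Set.disjoint_left.1 hYB h3 h4
    · exact h.cn_false hr hY hBU (le_of_eq rfl) hNB h2 h3 h4 hkC hYB hYC hBC
  · rcases hroot B hBU hBC hBM with h4 | h4
    · exact h.cn_false hr hBU hY hNB (le_of_eq rfl) h2 h4 h3 hkC hYB.symm hBC hYC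
    · exact Set.disjoint_left.1 hYB h3 h4

end Pool.Agent.Helper95.SEP
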