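import Pool.Agent.Helper95.SEP.Two
import Pool.Agent.Helper73.C3.One

/-!
# The inconsistent path of the warning set

`Y0 ⊆ M` nonempty, `u1, u2 ∈ M \ Y0`; all neighbours of `Y0` are in `Y0 ∪ {a, k, u1, u2}`, all
neighbours of `a` in `M` are in `Y0 ∪ {u1, u2}`; `κ` is proper on the edges meeting `Y0` and on the
edges from `a` to `M`. Then there is a path from `u1` to `u2` in `G[(M \ Y0) ∪ {b}]` of weight
`κ u1 + κ u2 + 1`.
PROOF. `Q = (M \ Y0) ∪ {b}`, `H` = the edges of `restr G M` with both ends in `Q`. helper73's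
`one_path` (C3/One.lean; two isolated vertices from `rest`) gives the path or `A1 ∋ u1, u2` and `ρ` with
`ρ u1 + ρ u2 = κ u1 + κ u2`; shift `ρ` so that `ρ = κ` on `u1, u2`.
* `Q ⊆ A1`: `κ' = κ` on `Y0 ∪ {a}`, `ρ` elsewhere is proper on all edges meeting `M` which avoid
  `k`: contradiction to `noapex k`.
* `x ∈ Q \ A1`, `C = Reach H {x} A1`; `Nb H C ⊆ A1` has at most one element (walk property), say
  `Nb H C ⊆ {v}`. `C' = C \ {b} ⊆ M`: `Nb G C' ⊆ {v, b, k}`, and `Nb G C' ⊆ {v, k}` if `b ∉ C`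
  [`C` is not adjacent to `Y0 ∪ {a}`: those neighbours are `u1, u2 ∈ A1`].
  - `b ∉ C`: contradiction to `conn`.
  - `b ∈ C`, `C' = ∅`: the neighbours of `b` in `M` (all in `Q`) are in `{v}`: contradiction to
    `two_nbrs`.
  - `b ∈ C`, `C' ≠ ∅`: `C' ≠ M`, so `C' = {x'}` (`min`), `Nb G {x'} = {v, b, k}`; the neighbours of
    `b` in `M` are in `{x', v}`. `X = M \ {x', v}` has `Nb G X ⊆ {a, k, v}`, so `|X| ≤ 1`; but
    `(Y0 ∪ {u1, u2}) \ {v} ⊆ X` has at least two elements.
-/

set_option autoImplicit false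

namespace Pool.Agent.Helper95.SEP

open SimpleGraph Pool.Agent.Helper57.TOK Pool.Agent.Helper57.TD Pool.Agent.Helper57.TOP
  Pool.Agent.Helper82.TK Pool.Agent.Helper73.C3

variable {V : Type*} {G : SimpleGraph V} {U M : Set V} {a b k : V}

/-- The part of `M ∪ {b}` outside `Y0`. -/
def Qs (M Y0 : Set V) (b : V) : Set V := {x | (x ∈ M ∧ x ∉ Y0) ∨ x = b}

/-- The graph `restr G M` inside `Q`. -/
def qG (G : SimpleGraph V) (M Q : Set V) : SimpleGraph V where
  Adj x y := (restr G M).Adj x y ∧ x ∈ Q ∧ y ∈ Q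
  symm := ⟨fun _ _ h => ⟨h.1.symm, h.2.2, h.2.1⟩⟩
  loopless := ⟨fun _ h => h.1.ne rfl⟩

lemma qG_walk {Q : Set V} {x y : V} (p : (qG G M Q).Walk x y) (hx : x ∈ Q) :
    ∀ z ∈ p.support, z ∈ Q := by
  induction p with
  | nil =>
    intro z hz
    rw [Walk.support_nil, List.mem_singleton] at hz
    rw [hz]; exact hx
  | cons h p ih =>
    intro z hz
    rw [Walk.support_cons, List.mem_cons] at hz
    rcases hz with rfl | hz
    · exact hx
    · exact ih h.2.2 z hz

theorem MinSide.path [Finite V] (h : MinSide G U M) (hr : Roots G M a b k) {Y0 : Set V}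
    (hY0 : Y0 ⊆ M) (hne : Y0.Nonempty) {u1 u2 : V} (h12 : u1 ≠ u2) (h1M : u1 ∈ M)
    (h2M : u2 ∈ M) (h1 : u1 ∉ Y0) (h2 : u2 ∉ Y0)
    (hN : ∀ x ∈ Y0, ∀ y, G.Adj x y → y ∈ Y0 ∨ y = a ∨ y = k ∨ y = u1 ∨ y = u2)
    (ha : ∀ y ∈ M, G.Adj a y → y ∈ Y0 ∨ y = u1 ∨ y = u2) {κ : V → ZMod 2}
    (hκ : ∀ x ∈ Y0, ∀ y, G.Adj x y → κ x ≠ κ y) (hκa : ∀ y ∈ M, G.Adj a y → κ a ≠ κ y) :
    ∃ P : (restr G M).Walk u1 u2, P.IsPath ∧ wt (One V) P = κ u1 + κ u2 + 1 ∧
      ∀ x ∈ P.support, (x ∈ M ∧ x ∉ Y0) ∨ x = b := by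
  classical
  set Q : Set V := Qs M Y0 b with hQ
  set H : SimpleGraph V := qG G M Q with hH
  have hle : H ≤ restr G M := fun _ _ hh => hh.1
  have h1Q : u1 ∈ Q := Or.inl ⟨h1M, h1⟩
  have h2Q : u2 ∈ Q := Or.inl ⟨h2M, h2⟩
  have hbQ : b ∈ Q := Or.inr rfl
  -- two isolated vertices
  obtain ⟨v0, hv0, m0, hm0, hvm⟩ := (Set.one_lt_ncard (Set.toFinite _)).1
    (lt_of_lt_of_le one_lt_two h.rest)
  have hout : ∀ w, w ∈ U \ (M ∪ Nb G M) → w ∉ Q := by
    rintro w ⟨-, hw⟩ (h5 | h5)
    · exact hw (Or.inl h5.1)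
    · exact hw (Or.inr (h5 ▸ hr.mb))
  have hiso : ∀ w, w ∈ U \ (M ∪ Nb G M) → ∀ x, ¬ H.Adj w x := fun w hw x hh => hout w hw hh.2.1
  have hn : ∀ u, u ∈ Q → ∀ w, w ∈ U \ (M ∪ Nb G M) → u ≠ w := by
    rintro u hu w hw rfl
    exact hout u hw hu
  rcases one_path (H := H) (c := One V) h12 (hn _ h1Q _ hv0) (hn _ h1Q _ hm0) (hn _ h2Q _ hv0)
    (hn _ h2Q _ hm0) hvm (hiso _ hv0) (hiso _ hm0) (κ u1 + κ u2 + 1) with
    ⟨P, hP, hPw⟩ | ⟨A1, ρ, h1A, h2A, -, -, hρ, hedge, hwalk⟩
  · refine ⟨P.mapLe hle, (Walk.isPath_mapLe hle).2 hP, by rw [wt_mapLe, hPw], ?_⟩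
    intro x hx
    rw [Walk.support_mapLe_eq_support] at hx
    exact qG_walk P h1Q x hx
  exfalso
  have hρ' : ρ u1 + ρ u2 = κ u1 + κ u2 := by
    rw [hρ, add_assoc, show (1 : ZMod 2) + 1 = 0 from rfl, add_zero]
  have hQM : ∀ {x}, x ∈ Q → x ∈ M → x ∉ Y0 := by
    rintro x (h5 | h5) hx
    · exact h5.2
    · exact absurd (h5 ▸ hx) hr.bM
  -- edges from a vertex of `Q ∩ M` to `Y0` or `a`
  have hend : ∀ x ∈ M, x ∉ Y0 → ∀ y, G.Adj x y → (y ∈ Y0 ∨ y = a) → x = u1 ∨ x = u2 := by
    intro x hx hxY y hxy hy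
    rcases hy with hy | rfl
    · rcases hN y hy x hxy.symm with h5 | h5 | h5 | h5 | h5
      · exact absurd h5 hxY
      · exact absurd (h5 ▸ hx) hr.aM
      · exact absurd (h5 ▸ hx) hr.kM
      · exact Or.inl h5
      · exact Or.inr h5
    · rcases ha x hx hxy.symm with h5 | h5
      · exact absurd h5 hxY
      · exact h5
  by_cases hcov : Q ⊆ A1
  · -- everything is consistent
    set δ : ZMod 2 := ρ u1 + κ u1 with hδ
    have e1 : ρ u1 + δ = κ u1 := by
      rw [hδ, ← add_assoc, CharTwo.add_self_eq_zero, zero_add]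
    have e2 : ρ u2 + δ = κ u2 := by
      have : ρ u2 + δ = (ρ u1 + ρ u2) + κ u1 := by rw [hδ]; ring
      rw [this, hρ']
      have : κ u1 + κ u2 + κ u1 = κ u2 + (κ u1 + κ u1) := by ring
      rw [this, CharTwo.add_self_eq_zero, add_zero]
    set κ' : V → ZMod 2 := fun x => if x ∈ Y0 ∨ x = a then κ x else ρ x + δ with hκ'
    have k1 : ∀ x, (x ∈ Y0 ∨ x = a) → κ' x = κ x := fun x hx => if_pos hx
    have k2 : ∀ x, ¬ (x ∈ Y0 ∨ x = a) → κ' x = ρ x + δ := fun x hx => if_neg hx
    have hu1 : ¬ (u1 ∈ Y0 ∨ u1 = a) := by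
      rintro (h5 | h5)
      · exact h1 h5
      · exact hr.aM (h5 ▸ h1M)
    have hu2 : ¬ (u2 ∈ Y0 ∨ u2 = a) := by
      rintro (h5 | h5)
      · exact h2 h5
      · exact hr.aM (h5 ▸ h2M)
    have k3 : κ' u1 = κ u1 := by rw [k2 u1 hu1, e1]
    have k4 : κ' u2 = κ u2 := by rw [k2 u2 hu2, e2]
    apply h.noapex k hr.mc κ'
    intro x y hx hyk hxy
    by_cases hxY : x ∈ Y0
    · rw [k1 x (Or.inl hxY)]
      rcases hN x hxY y hxy with h5 | h5 | h5 | h5 | h5
      · rw [k1 y (Or.inl h5)]; exact hκ x hxY y hxy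
      · rw [k1 y (Or.inr h5)]; exact hκ x hxY y hxy
      · exact absurd h5 hyk
      · rw [h5, k3, ← h5]; exact hκ x hxY y hxy
      · rw [h5, k4, ← h5]; exact hκ x hxY y hxy
    · have hxa : ¬ (x ∈ Y0 ∨ x = a) := by
        rintro (h5 | h5)
        · exact hxY h5
        · exact hr.aM (h5 ▸ hx)
      by_cases hya : y ∈ Y0 ∨ y = a
      · have hxu : κ' x = κ x := by
          rcases hend x hx hxY y hxy hya with h5 | h5
          · rw [h5]; exact k3
          · rw [h5]; exact k4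
        rw [hxu, k1 y hya]
        rcases hya with hy | rfl
        · exact (hκ y hy x hxy.symm).symm
        · exact (hκa x hx hxy.symm).symm
      · have hxQ : x ∈ Q := Or.inl ⟨hx, hxY⟩
        have hyQ : y ∈ Q := by
          rcases hr.cases hx hxy with h5 | h5 | h5 | h5
          · exact Or.inl ⟨h5, fun h6 => hya (Or.inl h6)⟩
          · exact absurd (Or.inr h5) hya
          · exact Or.inr h5
          · exact absurd h5 hyk
        have h5 := hedge x (hcov hxQ) y (hcov hyQ) ⟨⟨hxy, Or.inl hx⟩, hxQ, hyQ⟩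
        have h6 := add_eq_one_iff.1 h5.symm
        rw [k2 x hxa, k2 y hya]
        intro h7
        exact h6 (add_right_cancel h7)
  · rw [Set.not_subset] at hcov
    obtain ⟨x0, hx0Q, hx0A⟩ := hcov
    set C : Set V := Reach H {x0} A1 with hC
    have hx0C : x0 ∈ C := reach_of_mem rfl hx0A
    have hCA : ∀ z ∈ C, z ∉ A1 := fun z hz => not_mem_of_reach hz
    have hCQ : ∀ z ∈ C, z ∈ Q := by
      rintro z ⟨x, hx, p, -⟩
      rw [Set.mem_singleton_iff] at hx
      subst hx
      exact qG_walk p hx0Q z p.end_mem_support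
    have hstep : ∀ z ∈ C, ∀ y, H.Adj z y → y ∈ C ∨ y ∈ Nb H C := by
      intro z hz y hzy
      by_cases hy : y ∈ C
      · exact Or.inl hy
      · exact Or.inr ⟨hy, z, hz, hzy⟩
    have hNA : ∀ y ∈ Nb H C, y ∈ A1 ∧ y ∈ Q := by
      rintro y ⟨hy, z, hz, hzy⟩
      refine ⟨?_, hzy.2.2⟩
      by_contra hyA
      exact hy (reach_adj hz hzy hyA)
    have huq : ∀ y ∈ Nb H C, ∀ y' ∈ Nb H C, y = y' := by
      intro y hy y' hy'
      by_contra hne'
      have hyA := (hNA y hy).1
      have hyA' := (hNA y' hy').1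
      obtain ⟨-, z, ⟨x, hx, p, hp⟩, hzy⟩ := hy
      obtain ⟨-, z', ⟨x', hx', p', hp'⟩, hzy'⟩ := hy'
      rw [Set.mem_singleton_iff] at hx hx'
      subst hx
      subst hx'
      refine hwalk y hyA y' hyA' hne' z z' hzy.symm hzy'.symm (p.reverse.append p') ?_
      intro w hw
      rw [Walk.mem_support_append_iff, Walk.support_reverse, List.mem_reverse] at hw
      rcases hw with hw | hw
      · exact hp w hw
      · exact hp' w hw
    obtain ⟨v, hvA, hvQ, hv⟩ : ∃ v, v ∈ A1 ∧ v ∈ Q ∧ ∀ y ∈ Nb H C, y = v := by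
      by_cases hex : (Nb H C).Nonempty
      · obtain ⟨v, hv⟩ := hex
        exact ⟨v, (hNA v hv).1, (hNA v hv).2, fun y hy => huq y hy v hv⟩
      · refine ⟨u1, h1A, h1Q, fun y hy => absurd ⟨y, hy⟩ hex⟩
    have hu1C : u1 ∉ C := fun h5 => hCA u1 h5 h1A
    have hu2C : u2 ∉ C := fun h5 => hCA u2 h5 h2A
    -- neighbours of `C ∩ M`
    have hCn : ∀ z ∈ C, z ∈ M → ∀ y, G.Adj z y → y ∈ C ∨ y = v ∨ y = k := by
      intro z hz hzM y hzy
      have hzY := hQM (hCQ z hz) hzM
      by_cases hya : y ∈ Y0 ∨ y = a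
      · exfalso
        rcases hend z hzM hzY y hzy hya with h5 | h5
        · exact hu1C (h5 ▸ hz)
        · exact hu2C (h5 ▸ hz)
      · rcases hr.cases hzM hzy with h5 | h5 | h5 | h5
        · have hyQ : y ∈ Q := Or.inl ⟨h5, fun h6 => hya (Or.inl h6)⟩
          rcases hstep z hz y ⟨⟨hzy, Or.inl hzM⟩, hCQ z hz, hyQ⟩ with h6 | h6
          · exact Or.inl h6
          · exact Or.inr (Or.inl (hv y h6))
        · exact absurd (Or.inr h5) hya
        · have hyQ : y ∈ Q := Or.inr h5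
          rcases hstep z hz y ⟨⟨hzy, Or.inl hzM⟩, hCQ z hz, hyQ⟩ with h6 | h6
          · exact Or.inl h6
          · exact Or.inr (Or.inl (hv y h6))
        · exact Or.inr (Or.inr h5)
    by_cases hbC : b ∈ C
    · have hvb : v ≠ b := by
        rintro rfl
        exact hCA _ hbC hvA
      have hvM : v ∈ M := by
        rcases hvQ with h5 | h5
        · exact h5.1
        · exact absurd h5 hvb
      -- neighbours of `b` in `M`
      have hbn : ∀ x ∈ M, G.Adj b x → x ∈ C ∨ x = v := by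
        intro x hx hbx
        have hxY : x ∉ Y0 := by
          intro hxY
          rcases hN x hxY b hbx.symm with h5 | h5 | h5 | h5 | h5
          · exact hr.bM (hY0 h5)
          · exact hr.ab h5.symm
          · exact hr.bk h5
          · exact hr.bM (h5 ▸ h1M)
          · exact hr.bM (h5 ▸ h2M)
        rcases hstep b hbC x ⟨⟨hbx, Or.inr hx⟩, hbQ, Or.inl ⟨hx, hxY⟩⟩ with h5 | h5
        · exact Or.inl h5
        · exact Or.inr (hv x h5)
      set C' : Set V := C \ {b} with hC'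
      have hC'M : C' ⊆ M := by
        rintro x ⟨hx, hxb⟩
        rcases hCQ x hx with h5 | h5
        · exact h5.1
        · exact absurd h5 hxb
      have hNC' : Nb G C' ⊆ {b, v, k} := by
        rintro y ⟨hy, z, hz, hzy⟩
        rcases hCn z hz.1 (hC'M hz) y hzy with h5 | h5 | h5
        · left
          by_contra hyb
          exact hy ⟨h5, hyb⟩
        · exact Or.inr (Or.inl h5)
        · exact Or.inr (Or.inr h5)
      have hle3 : ∀ p q r : V, ({p, q, r} : Set V).ncard ≤ 3 := by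
        intro p q r
        have g1 := Set.ncard_insert_le p ({q, r} : Set V)
        have g2 := Set.ncard_insert_le q ({r} : Set V)
        rw [Set.ncard_singleton] at g2
        omega
      have hC'ne : C' ≠ M := by
        intro hh
        have : u1 ∈ C' := hh ▸ h1M
        exact hu1C this.1
      have hC'1 := h.min C' hC'M hC'ne
        ((Set.ncard_le_ncard hNC' (Set.toFinite _)).trans (hle3 _ _ _))
      by_cases hCe : C' = ∅
      · obtain ⟨x, hxM, hxv, hbx⟩ := h.exists_two hr.mb v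
        rcases hbn x hxM hbx with h5 | h5
        · have : x ∈ C' := ⟨h5, fun h6 => hr.bM (h6 ▸ hxM)⟩
          rw [hCe] at this
          exact this
        · exact hxv h5
      · obtain ⟨x', hx'⟩ := Set.nonempty_iff_ne_empty.2 hCe
        have hx'u : ∀ x ∈ C', x = x' := by
          intro x hx
          by_contra hne'
          have g1 : ({x, x'} : Set V) ⊆ C' := by
            rintro z (rfl | hz)
            · exact hx
            · rw [Set.mem_singleton_iff] at hz; rw [hz]; exact hx'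
          have g2 := Set.ncard_le_ncard g1 (Set.toFinite _)
          rw [Set.ncard_pair hne'] at g2
          omega
        have hx'M := hC'M hx'
        set X : Set V := M \ {x', v} with hX
        have hXne : X ≠ M := by
          intro hh
          have : x' ∈ X := hh ▸ hx'M
          exact this.2 (Or.inl rfl)
        have hNX : Nb G X ⊆ {a, k, v} := by
          rintro y ⟨hy, z, hz, hzy⟩
          have hzx : z ≠ x' := fun hh => hz.2 (Or.inl hh)
          have hzv : z ≠ v := fun hh => hz.2 (Or.inr hh)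
          rcases hr.cases hz.1 hzy with h5 | h5 | h5 | h5
          · have h6 : y = x' ∨ y = v := by
              by_contra hcon
              rw [not_or] at hcon
              exact hy ⟨h5, fun h7 => h7.elim hcon.1 hcon.2⟩
            rcases h6 with rfl | h6
            · exfalso
              rcases hCn y hx'.1 hx'M z hzy.symm with h7 | h7 | h7
              · exact hzx (hx'u z ⟨h7, fun h8 => hr.bM (h8 ▸ hz.1)⟩)
              · exact hzv h7
              · exact hr.kM (h7 ▸ hz.1)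
            · exact Or.inr (Or.inr h6)
          · exact Or.inl h5
          · exfalso
            rcases hbn z hz.1 (h5 ▸ hzy.symm) with h6 | h6
            · exact hzx (hx'u z ⟨h6, fun h8 => hr.bM (h8 ▸ hz.1)⟩)
            · exact hzv h6
          · exact Or.inr (Or.inl h5)
        have hX1 := h.min X Set.sdiff_subset hXne
          ((Set.ncard_le_ncard hNX (Set.toFinite _)).trans (hle3 _ _ _))
        obtain ⟨y0, hy0⟩ := hne
        have hx'Y : x' ∉ Y0 := hQM (hCQ x' hx'.1) hx'M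
        have hx'1 : u1 ≠ x' := fun hh => hu1C (hh ▸ hx'.1)
        have hx'2 : u2 ≠ x' := fun hh => hu2C (hh ▸ hx'.1)
        have hx'0 : y0 ≠ x' := fun hh => hx'Y (hh ▸ hy0)
        have h01 : y0 ≠ u1 := fun hh => h1 (hh ▸ hy0)
        have h02 : y0 ≠ u2 := fun hh => h2 (hh ▸ hy0)
        have htwo : ∀ p q : V, p ∈ M → q ∈ M → p ≠ x' → q ≠ x' → p ≠ v → q ≠ v → p ≠ q →
            False := by
          intro p q hp hq hp1 hq1 hp2 hq2 hpq
          have g1 : ({p, q} : Set V) ⊆ X := by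
            rintro z (rfl | hz)
            · exact ⟨hp, fun hh => hh.elim hp1 hp2⟩
            · rw [Set.mem_singleton_iff] at hz
              rw [hz]
              exact ⟨hq, fun hh => hh.elim hq1 hq2⟩
          have g2 := Set.ncard_le_ncard g1 (Set.toFinite _)
          rw [Set.ncard_pair hpq] at g2
          omega
        by_cases hv0 : y0 = v
        · exact htwo u1 u2 h1M h2M hx'1 hx'2 (fun hh => h01 (hv0.trans hh.symm))
            (fun hh => h02 (hv0.trans hh.symm)) h12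
        · by_cases hv1 : u1 = v
          · exact htwo y0 u2 (hY0 hy0) h2M hx'0 hx'2 hv0 (fun hh => h12 (hv1.trans hh.symm)) h02
          · exact htwo y0 u1 (hY0 hy0) h1M hx'0 hx'1 hv0 hv1 h01
    · have hCM : C ⊆ M := by
        intro x hx
        rcases hCQ x hx with h5 | h5
        · exact h5.1
        · exact absurd (h5 ▸ hx) hbC
      have g1 := h.conn C hCM ⟨x0, hx0C⟩
      have g2 : Nb G C ⊆ {v, k} := by
        rintro y ⟨hy, z, hz, hzy⟩
        rcases hCn z hz (hCM hz) y hzy with h5 | h5 | h5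
        · exact absurd h5 hy
        · exact Or.inl h5
        · exact Or.inr h5
      have g3 := Set.ncard_le_ncard g2 (Set.toFinite _)
      have g4 := Set.ncard_insert_le v ({k} : Set V)
      rw [Set.ncard_singleton] at g4
      omega

end Pool.Agent.Helper95.SEP
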