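import Pool.Agent.Helper95.SEP.Defs

/-!
# Every root has at least two neighbours in `M`

PROOF (2a). Let `l ∈ Nb G M` with exactly one neighbour `v ∈ M`. `X = M \ {v}`:
`Nb G X ⊆ {v} ∪ (Nb G M \ {l})`, so `|X| ≤ 1` (`min`; `X ≠ M`).
* `X = ∅`: `M = {v}`; `κ = 1` outside `v`, `κ v = 0` is proper: contradiction to `noapex`.
* `X = {v'}`: `Nb G {v'} ⊆ {v, a, b}` (`{l, a, b} = Nb G M`), `conn` gives `v' ~ v, a, b`.
  `conn` for `{v}`: `v` has at least three neighbours in `{v', l, a, b}`, `v ~ l`. If `v` is not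
  adjacent to `a`: the edges meeting `M` which avoid `b` are `v v'`, `v' a`, `v l`: a tree, proper
  colouring, contradiction to `noapex b`; the same for `b`. So `v ~ a, b`, and
  `v, v', a, b` with the edge `a b` of `fG G M a b m` is a `K4`: contradiction to `link`
  (`m` from `rest`; `hasTOK4s_of_fan_triangle` with walks of length one).
-/

set_option autoImplicit false

namespace Pool.Agent.Helper95.SEP

open SimpleGraph Pool.Agent.Helper57.TOK Pool.Agent.Helper57.TD Pool.Agent.Helper57.TOP
  Pool.Agent.Helper82.TK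

variable {V : Type*} {G : SimpleGraph V} {U M : Set V} {a b k : V}

/-- A spare vertex. -/
lemma MinSide.exists_m [Finite V] (h : MinSide G U M) : ∃ m ∈ U, m ∉ M ∧ m ∉ Nb G M := by
  have h1 : (U \ (M ∪ Nb G M)).Nonempty := by
    rw [← Set.ncard_pos (Set.toFinite _)]
    have := h.rest
    omega
  obtain ⟨m, hm, hm'⟩ := h1
  exact ⟨m, hm, fun hh => hm' (Or.inl hh), fun hh => hm' (Or.inr hh)⟩

/-- Four pairwise adjacent vertices. -/
theorem tok_of_K4 {H : SimpleGraph V} {p q r s : V} (h1 : H.Adj p q) (h2 : H.Adj p r)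
    (h3 : H.Adj p s) (h4 : H.Adj q r) (h5 : H.Adj q s) (h6 : H.Adj r s) :
    HasTOK4s H (One V) := by
  have hadj : ∀ i : Fin 3, H.Adj p ((![q, r, s] : Fin 3 → V) i) := by
    intro i; fin_cases i
    · exact h1
    · exact h2
    · exact h3
  have hsup : ∀ i : Fin 3, (Walk.cons (hadj i) Walk.nil : H.Walk p _).support =
      [p, (![q, r, s] : Fin 3 → V) i] := fun i => rfl
  refine hasTOK4s_of_fan_triangle (w := p) (b := ![q, r, s])
    (fun i => Walk.cons (hadj i) Walk.nil) ?_ ?_ ?_ ?_ ?_ ?_ ?_
  · intro i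
    rw [Walk.cons_isPath_iff]
    refine ⟨Walk.IsPath.nil, ?_⟩
    rw [Walk.support_nil, List.mem_singleton]
    exact (hadj i).ne
  · intro i
    rw [wt_cons, wt_nil]
    show (1 : ZMod 2) + 0 = 1
    simp
  · intro i j hij
    fin_cases i <;> fin_cases j <;> simp at hij ⊢ <;> first
      | exact absurd hij h4.ne
      | exact absurd hij h5.ne
      | exact absurd hij h6.ne
      | exact absurd hij h4.ne.symm
      | exact absurd hij h5.ne.symm
      | exact absurd hij h6.ne.symm
  · exact fun i => (hadj i).ne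
  · intro i j hij
    rw [hsup]
    simp only [List.mem_cons, List.not_mem_nil, or_false, not_or]
    refine ⟨(hadj j).ne.symm, ?_⟩
    fin_cases i <;> fin_cases j <;> simp at hij ⊢ <;> first
      | exact h4.ne
      | exact h5.ne
      | exact h6.ne
      | exact h4.ne.symm
      | exact h5.ne.symm
      | exact h6.ne.symm
  · intro i j hij x hx hx'
    rw [hsup] at hx hx'
    simp only [List.mem_cons, List.not_mem_nil, or_false] at hx hx'
    rcases hx with hx | hx
    · exact hx
    rcases hx' with hx' | hx'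
    · exact hx'
    exfalso
    rw [hx] at hx'
    fin_cases i <;> fin_cases j <;> simp at hij hx' <;> first
      | exact absurd hx' h4.ne
      | exact absurd hx' h5.ne
      | exact absurd hx' h6.ne
      | exact absurd hx' h4.ne.symm
      | exact absurd hx' h5.ne.symm
      | exact absurd hx' h6.ne.symm
  · intro i j hij
    refine ⟨?_, rfl⟩
    fin_cases i <;> fin_cases j <;> simp at hij ⊢ <;> first
      | exact h4
      | exact h5
      | exact h6
      | exact h4.symm
      | exact h5.symm
      | exact h6.symm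

lemma MinSide.exists_roots [Finite V] (h : MinSide G U M) {l : V} (hl : l ∈ Nb G M) :
    ∃ a b, Roots G M a b l := by
  obtain ⟨x, y, z, hxy, hxz, hyz, he⟩ := Set.ncard_eq_three.1 h.three
  have hl' := hl
  rw [he] at hl'
  rcases hl' with rfl | rfl | h1
  · exact ⟨y, z, by rw [he]; ext w; simp only [Set.mem_insert_iff, Set.mem_singleton_iff]; tauto,
      hyz, hxy.symm, hxz.symm⟩
  · exact ⟨x, z, by rw [he]; ext w; simp only [Set.mem_insert_iff, Set.mem_singleton_iff]; tauto,
      hxz, hxy, hyz.symm⟩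
  · rw [Set.mem_singleton_iff] at h1
    subst h1
    exact ⟨x, y, he, hxy, hxz, hyz⟩

/-- (2a) -/
theorem MinSide.two_nbrs [Finite V] (h : MinSide G U M) {l : V} (hl : l ∈ Nb G M) :
    2 ≤ (G.neighborSet l ∩ M).ncard := by
  classical
  by_contra hlt
  push Not at hlt
  obtain ⟨a, b, hr⟩ := h.exists_roots hl
  obtain ⟨hlM, v, hvM, hvl⟩ := hl
  have huniq : ∀ x ∈ M, G.Adj x l → x = v := by
    intro x hx hxl
    by_contra hne
    have h1 : ({x, v} : Set V) ⊆ G.neighborSet l ∩ M := by
      rintro z (rfl | hz)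
      · exact ⟨hxl.symm, hx⟩
      · rw [Set.mem_singleton_iff] at hz
        rw [hz]; exact ⟨hvl.symm, hvM⟩
    have h2 := Set.ncard_le_ncard h1 (Set.toFinite _)
    rw [Set.ncard_pair hne] at h2
    omega
  set X : Set V := M \ {v} with hX
  have hXM : X ⊆ M := Set.sdiff_subset
  have hXne : X ≠ M := by
    intro hh
    have : v ∈ X := hh ▸ hvM
    exact this.2 rfl
  have hNX : Nb G X ⊆ {v, a, b} := by
    rintro y ⟨hy, x, hx, hxy⟩
    by_cases hyv : y = v
    · exact Or.inl hyv
    have hyM : y ∉ M := fun hh => hy ⟨hh, hyv⟩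
    rcases hr.cases (hXM hx) hxy with h1 | h1 | h1 | h1
    · exact absurd h1 hyM
    · exact Or.inr (Or.inl h1)
    · exact Or.inr (Or.inr h1)
    · exfalso
      rw [h1] at hxy
      exact hx.2 (huniq x hx.1 hxy)
  have hX3 : (Nb G X).ncard ≤ 3 := by
    refine (Set.ncard_le_ncard hNX (Set.toFinite _)).trans ?_
    have h1 := Set.ncard_insert_le v ({a, b} : Set V)
    have h2 := Set.ncard_insert_le a ({b} : Set V)
    rw [Set.ncard_singleton] at h2
    omega
  have hX1 := h.min X hXM hXne hX3
  by_cases hXe : X = ∅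
  · -- one vertex
    have hM : ∀ x ∈ M, x = v := by
      intro x hx
      by_contra hne
      have : x ∈ X := ⟨hx, hne⟩
      rw [hXe] at this
      exact this
    apply h.noapex l ⟨hlM, v, hvM, hvl⟩ (fun x => if x = v then 0 else 1)
    intro u w hu _ huw
    have h1 := hM u hu
    subst h1
    rw [if_pos rfl, if_neg huw.ne.symm]
    decide
  · obtain ⟨v', hv'⟩ := Set.nonempty_iff_ne_empty.2 hXe
    have hXv : ∀ x ∈ X, x = v' := by
      intro x hx
      by_contra hne
      have h1 : ({x, v'} : Set V) ⊆ X := by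
        rintro z (rfl | hz)
        · exact hx
        · rw [Set.mem_singleton_iff] at hz; rw [hz]; exact hv'
      have h2 := Set.ncard_le_ncard h1 (Set.toFinite _)
      rw [Set.ncard_pair hne] at h2
      omega
    have hMv : ∀ x ∈ M, x = v ∨ x = v' := by
      intro x hx
      by_cases hxv : x = v
      · exact Or.inl hxv
      · exact Or.inr (hXv x ⟨hx, hxv⟩)
    have hv'M : v' ∈ M := hv'.1
    have hv'v : v' ≠ v := hv'.2
    have hN' : Nb G {v'} ⊆ {v, a, b} := by
      rintro y ⟨hy, x, hx, hxy⟩
      rw [Set.mem_singleton_iff] at hx hy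
      subst hx
      rcases hr.cases hv'M hxy with h1 | h1 | h1 | h1
      · rcases hMv y h1 with h2 | h2
        · exact Or.inl h2
        · exact absurd h2 hy
      · exact Or.inr (Or.inl h1)
      · exact Or.inr (Or.inr h1)
      · exfalso
        rw [h1] at hxy
        exact hv'v (huniq x hv'M hxy)
    have h3 := h.conn {v'} (by rintro x hx; rw [Set.mem_singleton_iff] at hx; rw [hx]; exact hv'M)
      ⟨v', rfl⟩
    have hle3 : ({v, a, b} : Set V).ncard ≤ 3 := by
      have h1 := Set.ncard_insert_le v ({a, b} : Set V)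
      have h2 := Set.ncard_insert_le a ({b} : Set V)
      rw [Set.ncard_singleton] at h2
      omega
    have hN'eq : Nb G {v'} = {v, a, b} :=
      Set.eq_of_subset_of_ncard_le hN' (by omega) (Set.toFinite _)
    have hadj' : ∀ y ∈ ({v, a, b} : Set V), G.Adj v' y := by
      intro y hy
      rw [← hN'eq] at hy
      obtain ⟨-, x, hx, hxy⟩ := hy
      rw [Set.mem_singleton_iff] at hx
      rwa [hx] at hxy
    have e1 : G.Adj v' v := hadj' v (by simp)
    have e2 : G.Adj v' a := hadj' a (by simp)
    have e3 : G.Adj v' b := hadj' b (by simp)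
    have hva_ne : v ≠ a := fun hh => hr.aM (hh ▸ hvM)
    have hvb_ne : v ≠ b := fun hh => hr.bM (hh ▸ hvM)
    -- `v` is adjacent to a root `p` if the other one is removed
    have key : ∀ p q : V, Roots G M p q l → G.Adj v p := by
      intro p q hpq
      by_contra hno
      have hvp : v ≠ p := fun hh => hpq.aM (hh ▸ hvM)
      have hv'p : v' ≠ p := fun hh => hpq.aM (hh ▸ hv'M)
      apply h.noapex q hpq.mb (fun x => if x = v ∨ x = p then 0 else 1)
      intro u w hu hwq huw
      rcases hMv u hu with rfl | rfl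
      · have hwu : w ≠ u := huw.ne.symm
        have hwp : w ≠ p := fun hh => hno (hh ▸ huw)
        rw [if_pos (Or.inl rfl), if_neg (by tauto)]
        decide
      · have hw : w = v ∨ w = p := by
          rcases hpq.cases hu huw with h1 | h1 | h1 | h1
          · rcases hMv w h1 with h2 | h2
            · exact Or.inl h2
            · exact absurd h2 huw.ne.symm
          · exact Or.inr h1
          · exact absurd h1 hwq
          · rw [h1] at huw
            exact absurd (huniq u hu huw) hv'v
        rw [if_neg (by tauto), if_pos hw]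
        decide
    have e4 : G.Adj v a := key a b hr
    have e5 : G.Adj v b := key b a hr.swap
    obtain ⟨m, -, hm1, hm2⟩ := h.exists_m
    refine h.link a hr.ma b hr.mb hr.ab m hm1 hm2
      (tok_of_K4 (p := v') (q := v) (r := a) (s := b) ?_ ?_ ?_ ?_ ?_ ?_)
    · exact fG_adj.2 (Or.inl ⟨e1, Or.inl hv'M⟩)
    · exact fG_adj.2 (Or.inl ⟨e2, Or.inl hv'M⟩)
    · exact fG_adj.2 (Or.inl ⟨e3, Or.inl hv'M⟩)
    · exact fG_adj.2 (Or.inl ⟨e4, Or.inl hvM⟩)
    · exact fG_adj.2 (Or.inl ⟨e5, Or.inl hvM⟩)
    · exact fG_adj.2 (Or.inr ⟨hr.ab, Or.inl rfl⟩)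

/-- Two different neighbours in `M`. -/
theorem MinSide.exists_two [Finite V] (h : MinSide G U M) {l : V} (hl : l ∈ Nb G M) (v : V) :
    ∃ x ∈ M, x ≠ v ∧ G.Adj l x := by
  have h1 := h.two_nbrs hl
  by_contra hcon
  push Not at hcon
  have h2 : G.neighborSet l ∩ M ⊆ {v} := by
    rintro x ⟨hx1, hx2⟩
    by_contra hne
    exact hcon x hx2 hne hx1
  have h3 := Set.ncard_le_ncard h2 (Set.toFinite _)
  rw [Set.ncard_singleton] at h3
  omega

end Pool.Agent.Helper95.SEP
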