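import Pool.Agent.Helper95.SEP.Two
import Pool.Agent.Helper73.C3.Flex
import Pool.Agent.Helper1.SEP.World
import Pool.Agent.Helper75.SEP.Ties3

/-!
# World (2,2,0): existence of minimal sides

`World G U`: a minimal counterexample of minimum degree three in which every nontrivial set with
three neighbours has density at least two and no root apex. `World.side`: below every such set
there is a minimal one (`MinSide`), with flexible links through the rest.
-/

set_option autoImplicit false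

namespace Pool.Agent.Helper95.SEP

open SimpleGraph Pool.Agent.Helper57.TOK Pool.Agent.Helper57.TD Pool.Agent.Helper57.TOP
  Pool.Agent.Helper82.TK Pool.Agent.Helper73.C3
open Pool.Agent.Helper1.SEP (Links Two iiG false_of_two_sides)

variable {V : Type*} {G : SimpleGraph V} {U M Y : Set V} {a b k : V}

/-- The world (2,2,0). -/
structure World (G : SimpleGraph V) (U : Set V) : Prop where
  gmin : GMin G U
  deg3 : ∀ y ∈ U, 3 ≤ (G.neighborSet y).ncard
  num : ∀ Y ⊆ U, 2 ≤ Y.ncard → (Nb G Y).ncard = 3 → 2 ≤ (U \ (Y ∪ Nb G Y)).ncard →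
    2 ≤ fden G Y
  noapex : ∀ Y ⊆ U, 2 ≤ Y.ncard → (Nb G Y).ncard = 3 → 2 ≤ (U \ (Y ∪ Nb G Y)).ncard →
    ∀ l ∈ Nb G Y, ∀ κ : V → ZMod 2, ¬ ∀ u v, u ∈ Y → v ≠ l → G.Adj u v → κ u ≠ κ v

lemma World.edge_mem (h : World G U) : ∀ u v, G.Adj u v → u ∈ U := h.gmin.ex.edge_mem

lemma World.Nb_sub (h : World G U) (Y : Set V) : Nb G Y ⊆ U := by
  rintro v ⟨-, u, -, huv⟩
  exact h.edge_mem v u huv.symm

/-- Honest 3-connectivity. -/
lemma World.conn3 [Finite V] (h : World G U) {Y : Set V} (hY : Y ⊆ U) (hne : Y.Nonempty)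
    (h2 : (Nb G Y).ncard ≤ 2) : U ⊆ Y ∪ Nb G Y := by
  have hpos := (Set.ncard_pos (Set.toFinite _)).2 hne
  by_cases h1 : Y.ncard = 1
  · obtain ⟨y, rfl⟩ := Set.ncard_eq_one.1 h1
    have := h.deg3 y (hY rfl)
    rw [← Nb_singleton] at this
    omega
  have hle := h.gmin.ex.conn Y hY (by omega) h2
  by_contra hcon
  rw [Set.not_subset] at hcon
  obtain ⟨z, hzU, hz⟩ := hcon
  have hzr : z ∈ U \ (Y ∪ Nb G Y) := ⟨hzU, hz⟩
  have huniq : ∀ w ∈ U \ (Y ∪ Nb G Y), w = z := by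
    intro w hw
    by_contra hne'
    have g1 : ({w, z} : Set V) ⊆ U \ (Y ∪ Nb G Y) := by
      rintro x (rfl | hx)
      · exact hw
      · rw [Set.mem_singleton_iff] at hx; rw [hx]; exact hzr
    have g2 := Set.ncard_le_ncard g1 (Set.toFinite _)
    rw [Set.ncard_pair hne'] at g2
    omega
  have hsub : G.neighborSet z ⊆ Nb G Y := by
    intro w hw
    have hzw : G.Adj z w := hw
    by_contra hwN
    have hwY : w ∉ Y := fun hh => hz (Or.inr ⟨fun h5 => hz (Or.inl h5), w, hh, hzw.symm⟩)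
    have := huniq w ⟨h.edge_mem w z hzw.symm, fun h5 => h5.elim hwY hwN⟩
    exact hzw.ne this.symm
  have g1 := Set.ncard_le_ncard hsub (Set.toFinite _)
  have g2 := h.deg3 z hzU
  omega

/-- The rest. -/
def Rst (G : SimpleGraph V) (U Y : Set V) : Set V := U \ (Y ∪ Nb G Y)

lemma Rst_sub : Rst G U Y ⊆ U := Set.sdiff_subset

lemma World.Nb_Rst (h : World G U) : Nb G (Rst G U Y) ⊆ Nb G Y := by
  rintro v ⟨hv, u, hu, huv⟩
  have hvU : v ∈ U := h.edge_mem v u huv.symm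
  have hvY : v ∉ Y := fun hh => hu.2 (Or.inr ⟨fun h5 => hu.2 (Or.inl h5), v, hh, huv.symm⟩)
  by_contra hvN
  exact hv ⟨hvU, fun h5 => h5.elim hvY hvN⟩

lemma World.sub_Rst_Rst (h : World G U) (hY : Y ⊆ U) : Y ⊆ Rst G U (Rst G U Y) := by
  intro y hy
  refine ⟨hY hy, ?_⟩
  rintro (h1 | h1)
  · exact h1.2 (Or.inl hy)
  · exact (h.Nb_Rst h1).1 hy

/-- A nontrivial set with at most three neighbours. -/
structure Sep3 (G : SimpleGraph V) (U Y : Set V) : Prop where
  sub : Y ⊆ U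
  two : 2 ≤ Y.ncard
  three : (Nb G Y).ncard ≤ 3
  rest : 2 ≤ (U \ (Y ∪ Nb G Y)).ncard

lemma Sep3.eq3 [Finite V] (hs : Sep3 G U Y) (h : World G U) : (Nb G Y).ncard = 3 := by
  by_contra hne
  have h1 := hs.three
  have hY : Y.Nonempty := by
    rw [← Set.ncard_pos (Set.toFinite _)]
    have := hs.two
    omega
  have h2 := h.conn3 hs.sub hY (by omega)
  have h3 : U \ (Y ∪ Nb G Y) = ∅ := Set.sdiff_eq_empty.2 h2
  have h4 := hs.rest
  rw [h3, Set.ncard_empty] at h4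
  omega

/-- The other side. -/
lemma Sep3.other [Finite V] (hs : Sep3 G U Y) (h : World G U) : Sep3 G U (Rst G U Y) where
  sub := Rst_sub
  two := hs.rest
  three := (Set.ncard_le_ncard h.Nb_Rst (Set.toFinite _)).trans hs.three
  rest := hs.two.trans (Set.ncard_le_ncard (h.sub_Rst_Rst hs.sub) (Set.toFinite _))

lemma Sep3.Nb_other [Finite V] (hs : Sep3 G U Y) (h : World G U) :
    Nb G (Rst G U Y) = Nb G Y :=
  Set.eq_of_subset_of_ncard_le h.Nb_Rst
    (by rw [hs.eq3 h, (hs.other h).eq3 h]) (Set.toFinite _)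

/-- Smaller sets have larger rests. -/
lemma World.Rst_anti (_ : World G U) {X : Set V} (hX : X ⊆ Y) :
    U \ (Y ∪ Nb G Y) ⊆ U \ (X ∪ Nb G X) := by
  rintro z ⟨hzU, hz⟩
  refine ⟨hzU, ?_⟩
  rintro (h1 | ⟨-, x, hx, hxz⟩)
  · exact hz (Or.inl (hX h1))
  · exact hz (Or.inr ⟨fun h5 => hz (Or.inl h5), x, hX hx, hxz⟩)

/-- The links of a set through its rest. -/
theorem Sep3.links [Finite V] (hs : Sep3 G U M) (h : World G U) : Links G M := by
  intro a b k hr t
  have ho := hs.other h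
  have hN : Nb G (Rst G U M) = {a, b, k} := by rw [hs.Nb_other h, hr.eq]
  have hrest : (U \ (Rst G U M ∪ Nb G (Rst G U M))).Nonempty := by
    rw [← Set.ncard_pos (Set.toFinite _)]
    have := ho.rest
    omega
  obtain ⟨p, hp, hw, hsup, -⟩ := flex' (G := G) (c := fun _ => (1 : ZMod 2)) (U := U)
    (R := Rst G U M) (a := a) (b := b) (k := k) h.edge_mem h.gmin.ex.conn Rst_sub hN hr.ab hr.ak
    hr.bk hrest (by
      intro κ hκ
      refine h.noapex _ ho.sub ho.two (ho.eq3 h) ho.rest k (by rw [hN]; simp) κ ?_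
      intro u v hu hv huv
      exact add_eq_one_iff.1 (hκ u v hu hv huv).symm) t
  refine ⟨p, hp, hw, fun x hx => ⟨?_, (hsup x hx).2⟩⟩
  intro hxM
  rcases (hsup x hx).1 with h1 | h1 | h1
  · exact h1.2 (Or.inl hxM)
  · exact hr.aM (h1 ▸ hxM)
  · exact hr.bM (h1 ▸ hxM)

/-- No TOK4 with a flexible link. -/
theorem Sep3.no_link [Finite V] (hs : Sep3 G U M) (h : World G U) {a b : V} (ha : a ∈ Nb G M)
    (hb : b ∈ Nb G M) (hab : a ≠ b) {m : V} (hm : m ∉ M) (hmN : m ∉ Nb G M) :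
    ¬ HasTOK4s (fG G M a b m) (Pool.Agent.Helper57.TOP.One V) := by
  intro hK
  obtain ⟨k, hr⟩ : ∃ k, Roots G M a b k := by
    obtain ⟨x, y, z, hxy, hxz, hyz, he⟩ := Set.ncard_eq_three.1 (hs.eq3 h)
    rw [he] at ha hb
    have key : ∃ k, k ∈ ({x, y, z} : Set V) ∧ k ≠ a ∧ k ≠ b := by
      rcases ha with rfl | rfl | rfl <;> rcases hb with rfl | rfl | rfl
      · exact absurd rfl hab
      · exact ⟨z, by simp, hxz.symm, hyz.symm⟩
      · exact ⟨y, by simp, hxy.symm, hyz⟩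
      · exact ⟨z, by simp, hyz.symm, hxz.symm⟩
      · exact absurd rfl hab
      · exact ⟨x, by simp, hxy, hxz⟩
      · exact ⟨y, by simp, hyz, hxy.symm⟩
      · exact ⟨x, by simp, hxz, hxy⟩
      · exact absurd rfl hab
    obtain ⟨k, hk, hka, hkb⟩ := key
    refine ⟨k, ?_, hab, hka.symm, hkb.symm⟩
    symm
    apply Set.eq_of_subset_of_ncard_le _ _ (Set.toFinite _)
    · rw [he]
      rintro w (rfl | rfl | rfl)
      · exact ha
      · exact hb
      · exact hk
    · rw [hs.eq3 h, Set.ncard_insert_of_notMem, Set.ncard_pair hkb.symm]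
      simp only [Set.mem_insert_iff, Set.mem_singleton_iff, not_or]
      exact ⟨hab, hka.symm⟩
  apply h.gmin.bad
  have hlink : ∀ t : ZMod 2, ∃ R : G.Walk a b, R.IsPath ∧ wt (fun _ => 1) R = t ∧
      ∀ x ∈ R.support, x ∈ M ∪ Nb G M → x = a ∨ x = b := by
    intro t
    obtain ⟨R, g1, g2, g3⟩ := hs.links h a b k hr t
    refine ⟨R, g1, g2, ?_⟩
    rintro x hx (h5 | h5)
    · exact absurd h5 (g3 x hx).1
    · rw [hr.eq] at h5
      rcases h5 with h5 | h5 | h5
      · exact Or.inl h5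
      · exact Or.inr h5
      · exact absurd h5 (g3 x hx).2
  refine Pool.Agent.Helper1.SEP.lift_phi (G := G) (H := restr G M) (S := M ∪ Nb G M)
    (m := m) (b := a) (d := b) (restr_le G M) ?_ ?_ (Or.inr hr.ma) (Or.inr hr.mb) hab
    (hlink 1) (hlink 0) hK
  · rintro x ⟨y, hxy, h5 | h5⟩
    · exact Or.inl h5
    · by_cases hx : x ∈ M
      · exact Or.inl hx
      · exact Or.inr ⟨hx, y, h5, hxy.symm⟩
  · rintro (h5 | h5)
    · exact hm h5
    · exact hmN h5

/-- Below every nontrivial set with three neighbours there is a minimal side. -/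
theorem Sep3.exists_min [Finite V] (hs : Sep3 G U Y) (h : World G U) :
    ∃ M ⊆ Y, Sep3 G U M ∧ MinSide G U M := by
  classical
  have hex : ∃ n, ∃ X ⊆ Y, 2 ≤ X.ncard ∧ (Nb G X).ncard ≤ 3 ∧ X.ncard = n :=
    ⟨_, Y, subset_rfl, hs.two, hs.three, rfl⟩
  obtain ⟨M, hMY, hM2, hM3, hMn⟩ := Nat.find_spec hex
  have hmin : ∀ X ⊆ Y, 2 ≤ X.ncard → (Nb G X).ncard ≤ 3 → M.ncard ≤ X.ncard := by
    intro X h1 h2 h3
    rw [hMn]
    exact Nat.find_min' hex ⟨X, h1, h2, h3, rfl⟩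
  have hsM : Sep3 G U M := ⟨hMY.trans hs.sub, hM2, hM3,
    hs.rest.trans (Set.ncard_le_ncard (h.Rst_anti hMY) (Set.toFinite _))⟩
  refine ⟨M, hMY, hsM, ?_⟩
  have h3 := hsM.eq3 h
  refine ⟨hsM.sub, h.edge_mem, h3, hsM.rest, ?_, ?_, h.num M hsM.sub hM2 h3 hsM.rest,
    h.noapex M hsM.sub hM2 h3 hsM.rest, ?_, ?_⟩
  · intro X hX hne
    by_contra hlt
    have h5 := h.conn3 (hX.trans hsM.sub) hne (by omega)
    have h6 : U \ (X ∪ Nb G X) = ∅ := Set.sdiff_eq_empty.2 h5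
    have h7 := Set.ncard_le_ncard (h.Rst_anti hX) (Set.toFinite _)
    have h8 := hsM.rest
    rw [h6, Set.ncard_empty] at h7
    omega
  · intro X hX hne h5
    by_contra hlt
    have h6 := hmin X (hX.trans hMY) (by omega) h5
    have h7 := Set.ncard_lt_ncard (lt_of_le_of_ne hX hne) (Set.toFinite _)
    omega
  · intro G' U' hex' hlt
    exact h.gmin.IH G' U' hex' (Or.inl hlt)
  · intro a ha b hb hab m hm hmN
    exact hsM.no_link h ha hb hab hm hmN

/-- Two minimal sides. -/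
theorem Sep3.two_sides [Finite V] (hs : Sep3 G U Y) (h : World G U) :
    ∃ M1 M2, Sep3 G U M1 ∧ Sep3 G U M2 ∧ MinSide G U M1 ∧ MinSide G U M2 ∧
      M2 ⊆ U \ (M1 ∪ Nb G M1) ∧ M1 ⊆ U \ (M2 ∪ Nb G M2) := by
  obtain ⟨M1, h1, h2, h3⟩ := hs.exists_min h
  obtain ⟨M2, h4, h5, h6⟩ := (hs.other h).exists_min h
  refine ⟨M1, M2, h2, h5, h3, h6, ?_, ?_⟩
  · exact h4.trans (h.Rst_anti h1)
  · exact (h1.trans (h.sub_Rst_Rst hs.sub)).trans (h.Rst_anti h4)

/-- The same in the form of `MSide`. -/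
theorem MinSide.mside [Finite V] (hm : MinSide G U M) (h : World G U) (hr : Roots G M a b k) :
    Pool.Agent.Helper75.SEP.MSide G U M a b k where
  edge_mem := h.edge_mem
  deg3 := h.deg3
  conn := h.gmin.ex.conn
  MU := hm.sub
  NM := hr.eq
  l12 := hr.ab
  l13 := hr.ak
  l23 := hr.bk
  min := by
    intro X hX hne h2
    by_contra hlt
    have := hm.min X hX hne (by omega)
    omega
  dens := hm.f2
  noapex := by
    rintro l (rfl | rfl | rfl)
    · exact hm.noapex _ hr.ma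
    · exact hm.noapex _ hr.mb
    · exact hm.noapex _ hr.mc
  rest := by
    have := hm.rest
    rwa [hr.eq] at this

end Pool.Agent.Helper95.SEP
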